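import Pool.Agent.Q71.CO.Disp

/-!
# Pairs of unit quaternions with the same nondegenerate traces are conjugate
-/

open Quaternion

namespace Q71.CO

theorem rot_eq {p q : ℍ[ℝ]} {c : ℝ} (hp : p * p = -(c • 1)) (hq : q * q = -(c • 1)) :
    (c • 1 - q * p) * p = q * (c • 1 - q * p) := by
  rw [sub_mul, mul_sub, mul_assoc, hp, ← mul_assoc, hq]
  simp
  abel

theorem rot_zero {p q : ℍ[ℝ]} {c : ℝ} (hc : c ≠ 0) (hp : p * p = -(c • 1))
    (h : c • 1 - q * p = 0) : q = -p := by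
  have h1 : q * p = c • 1 := (sub_eq_zero.mp h).symm
  have h2 : q * p * p = c • p := by rw [h1]; simp
  rw [mul_assoc, hp] at h2
  have h3 : c • (q + p) = 0 := by
    rw [smul_add, ← h2]; simp
  rcases smul_eq_zero.mp h3 with h | h
  · exact absurd h hc
  · exact eq_neg_of_add_eq_zero_left h

theorem pair_conj {a v a' v' : ℍ[ℝ]} {α ω : ℝ} (hα : α ≠ 0) (hω : ω ≠ 0)
    (ha : a * a = -(α • 1)) (ha' : a' * a' = -(α • 1)) (hv : v * v = -(ω • 1))
    (hv' : v' * v' = -(ω • 1)) (hav : a * v = -(v * a)) (hav' : a' * v' = -(v' * a')) :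
    ∃ g : ℍ[ℝ], g ≠ 0 ∧ g * a = a' * g ∧ g * v = v' * g := by
  have v0 : v ≠ 0 := by
    rintro rfl; simp at hv; exact hω hv
  have a0' : a' ≠ 0 := by
    rintro rfl; simp at ha'; exact hα ha'
  obtain ⟨g1, hg1, e1⟩ : ∃ g : ℍ[ℝ], g ≠ 0 ∧ g * a = a' * g := by
    by_cases h : α • 1 - a' * a = 0
    · refine ⟨v, v0, ?_⟩
      rw [rot_zero hα ha h, neg_mul, hav, neg_neg]
    · exact ⟨_, h, rot_eq ha ha'⟩
  set v1 := g1 * v * g1⁻¹ with hv1
  have hv1v1 : v1 * v1 = -(ω • 1) := by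
    have : v1 * v1 = g1 * (v * v) * g1⁻¹ := by
      rw [hv1]; simp only [mul_assoc]; rw [inv_mul_cancel_left₀ hg1]
    rw [this, hv]; simp [hg1]
  have ha'e : a' = g1 * a * g1⁻¹ := by rw [e1, mul_assoc, mul_inv_cancel₀ hg1, mul_one]
  have hav1 : a' * v1 = -(v1 * a') := by
    have e2 : a' * v1 = g1 * (a * v) * g1⁻¹ := by
      rw [ha'e, hv1]; simp only [mul_assoc]; rw [inv_mul_cancel_left₀ hg1]
    have e3 : v1 * a' = g1 * (v * a) * g1⁻¹ := by
      rw [ha'e, hv1]; simp only [mul_assoc]; rw [inv_mul_cancel_left₀ hg1]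
    rw [e2, e3, hav]; simp
  obtain ⟨g2, hg2, e2, e3⟩ : ∃ g : ℍ[ℝ], g ≠ 0 ∧ g * a' = a' * g ∧ g * v1 = v' * g := by
    by_cases h : ω • 1 - v' * v1 = 0
    · refine ⟨a', a0', rfl, ?_⟩
      rw [rot_zero hω hv1v1 h, hav1, neg_mul]
    · refine ⟨_, h, ?_, rot_eq hv1v1 hv'⟩
      rw [sub_mul, mul_sub]
      have : v' * v1 * a' = a' * (v' * v1) := by
        calc v' * v1 * a' = v' * (v1 * a') := mul_assoc _ _ _
          _ = v' * (-(a' * v1)) := by rw [hav1, neg_neg]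
          _ = -(v' * a') * v1 := by rw [mul_neg, neg_mul, mul_assoc]
          _ = a' * (v' * v1) := by rw [← hav', mul_assoc]
      rw [this]; simp
  refine ⟨g2 * g1, mul_ne_zero hg2 hg1, ?_, ?_⟩
  · rw [mul_assoc, e1, ← mul_assoc, e2, mul_assoc]
  · have : g1 * v = v1 * g1 := by rw [hv1, mul_assoc, inv_mul_cancel₀ hg1, mul_one]
    rw [mul_assoc, this, ← mul_assoc, e3, mul_assoc]

/-- imaginary parts and their orthogonalisation -/
theorem frame {A B : ℍ[ℝ]} (hA : ‖A‖ = 1) (hB : ‖B‖ = 1) {x y z : ℝ} (hx : tr A = x)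
    (hy : tr B = y) (hz : tr (A * B) = z) :
    let a := A - (x / 2) • (1 : ℍ[ℝ])
    let v := (1 - x ^ 2 / 4) • (B - (y / 2) • (1 : ℍ[ℝ])) - (x * y / 4 - z / 2) • a
    a * a = -((1 - x ^ 2 / 4) • 1) ∧ a * v = -(v * a) ∧
    v * v = -(((1 - x ^ 2 / 4) * (1 - (x ^ 2 + y ^ 2 + z ^ 2 - x * y * z) / 4)) • 1) := by
  intro a v
  have hAA : A * A = x • A - 1 := by rw [sq_eq hA, hx]
  have hBB : B * B = y • B - 1 := by rw [sq_eq hB, hy]
  have haa : a * a = -((1 - x ^ 2 / 4) • 1) := by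
    simp only [a, sub_mul, mul_sub, smul_mul_assoc, mul_smul_comm, one_mul, mul_one, hAA]
    module
  set b := B - (y / 2) • (1 : ℍ[ℝ]) with hb
  have hbb : b * b = -((1 - y ^ 2 / 4) • 1) := by
    simp only [hb, sub_mul, mul_sub, smul_mul_assoc, mul_smul_comm, one_mul, mul_one, hBB]
    module
  have hBA : B * A = y • A + x • B + (z - x * y) • (1 : ℍ[ℝ]) - A * B := by
    have h1 := add_star (A * B)
    rw [hz, StarMul.star_mul, star_eq A, star_eq B, hx, hy] at h1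
    simp only [sub_mul, mul_sub, smul_mul_assoc, mul_smul_comm, one_mul, mul_one] at h1
    have h2 : B * A = y • A + x • B + z • (1 : ℍ[ℝ]) - (x * y) • (1 : ℍ[ℝ]) - A * B := by
      rw [← h1]; module
    rw [h2]
    module
  have hab : a * b + b * a = -((2 * (x * y / 4 - z / 2)) • 1) := by
    simp only [a, hb, sub_mul, mul_sub, smul_mul_assoc, mul_smul_comm, one_mul, mul_one, hBA]
    module
  have hba : b * a = -((2 * (x * y / 4 - z / 2)) • 1) - a * b := by rw [← hab]; abel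
  have hv : v = (1 - x ^ 2 / 4) • b - (x * y / 4 - z / 2) • a := rfl
  refine ⟨haa, ?_, ?_⟩
  · simp only [hv, sub_mul, mul_sub, smul_mul_assoc, mul_smul_comm, hba, haa]
    module
  · simp only [hv, sub_mul, mul_sub, smul_mul_assoc, mul_smul_comm, hba, haa, hbb]
    module

theorem conj_of_tr {A B A' B' : Sp1} {x y z : ℝ}
    (hx : tr (A : ℍ[ℝ]) = x) (hy : tr (B : ℍ[ℝ]) = y) (hz : tr ((A : ℍ[ℝ]) * B) = z)
    (hx' : tr (A' : ℍ[ℝ]) = x) (hy' : tr (B' : ℍ[ℝ]) = y) (hz' : tr ((A' : ℍ[ℝ]) * B') = z)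
    (h1 : 1 - x ^ 2 / 4 ≠ 0) (h2 : 1 - (x ^ 2 + y ^ 2 + z ^ 2 - x * y * z) / 4 ≠ 0) :
    ∃ g : Sp1, A' = g * A * g⁻¹ ∧ B' = g * B * g⁻¹ := by
  obtain ⟨f1, f2, f3⟩ := frame (norm_coe A) (norm_coe B) hx hy hz
  obtain ⟨f1', f2', f3'⟩ := frame (norm_coe A') (norm_coe B') hx' hy' hz'
  obtain ⟨g, hg, e1, e2⟩ := pair_conj h1 (mul_ne_zero h1 h2) f1 f1' f3 f3' f2 f2'
  have eA : g * (A : ℍ[ℝ]) = A' * g := by
    simp only [mul_sub, sub_mul, mul_smul_comm, smul_mul_assoc, mul_one, one_mul] at e1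
    exact sub_left_injective e1
  have eB : g * (B : ℍ[ℝ]) = B' * g := by
    simp only [mul_sub, sub_mul, mul_smul_comm, smul_mul_assoc, mul_one, one_mul, eA] at e2
    have e3 := sub_left_injective e2
    have e4 := smul_right_injective ℍ[ℝ] h1 e3
    exact sub_left_injective e4
  have hgn : ‖g‖ ≠ 0 := norm_ne_zero_iff.mpr hg
  have hmem : (‖g‖⁻¹ • g) ∈ Metric.sphere (0 : ℍ[ℝ]) 1 := by
    rw [mem_sphere_zero_iff_norm, norm_smul, norm_inv, norm_norm, inv_mul_cancel₀ hgn]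
  refine ⟨⟨_, hmem⟩, ?_, ?_⟩
  · rw [eq_mul_inv_iff_mul_eq]
    apply Subtype.ext
    simp only [Metric.unitSphere.coe_mul, smul_mul_assoc, mul_smul_comm, eA]
  · rw [eq_mul_inv_iff_mul_eq]
    apply Subtype.ext
    simp only [Metric.unitSphere.coe_mul, smul_mul_assoc, mul_smul_comm, eB]

end Q71.CO
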