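import Pool.Agent.Q71.CO.Quat

/-!
# Displacement of the squared word map, and conjugacy of irreducible pairs
-/

open Quaternion

namespace Q71.CO

/-- the group of unit quaternions -/
abbrev Sp1 : Type := Metric.sphere (0 : ℍ[ℝ]) 1

theorem norm_coe (g : Sp1) : ‖(g : ℍ[ℝ])‖ = 1 := by
  have := g.2
  rwa [mem_sphere_zero_iff_norm] at this

theorem sdist_left (a b c : Sp1) : dist (a * b) (a * c) = dist b c := by
  rw [Subtype.dist_eq, Subtype.dist_eq, dist_eq_norm, dist_eq_norm, Metric.unitSphere.coe_mul,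
    Metric.unitSphere.coe_mul, ← mul_sub, norm_mul, norm_coe, one_mul]

theorem sdist_right (a b c : Sp1) : dist (b * a) (c * a) = dist b c := by
  rw [Subtype.dist_eq, Subtype.dist_eq, dist_eq_norm, dist_eq_norm, Metric.unitSphere.coe_mul,
    Metric.unitSphere.coe_mul, ← sub_mul, norm_mul, norm_coe, mul_one]

theorem sdist_mul (a b c d : Sp1) : dist (a * b) (c * d) ≤ dist a c + dist b d := by
  calc dist (a * b) (c * d) ≤ dist (a * b) (c * b) + dist (c * b) (c * d) := dist_triangle _ _ _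
    _ = _ := by rw [sdist_right, sdist_left]

theorem sdist_inv (a b : Sp1) : dist a⁻¹ b⁻¹ = dist a b := by
  rw [← sdist_left a, ← sdist_right b]
  simp [dist_comm]

theorem sdist_one (a b : Sp1) : dist a b⁻¹ = dist (a * b) 1 := by
  rw [← sdist_right b]; simp

theorem coe_inv (g : Sp1) : ((g⁻¹ : Sp1) : ℍ[ℝ]) = star (g : ℍ[ℝ]) := by
  have h1 := star_mul_unit (norm_coe g)
  rw [Metric.unitSphere.coe_inv]
  exact inv_eq_of_mul_eq_one_left h1

/-- bound for the error of one step -/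
noncomputable def ep (t : ℝ) : ℝ := |t + 1| * (|t - 1| + 1)

theorem cube_eq {q : ℍ[ℝ]} (h : ‖q‖ = 1) :
    q * q * q = ((tr q) ^ 2 - 1) • q - (tr q) • (1 : ℍ[ℝ]) := by
  rw [sq_eq h, sub_mul, smul_mul_assoc, sq_eq h, one_mul, smul_sub, smul_smul, sub_smul, one_smul,
    pow_two]
  abel

theorem dist_cube_one (D : Sp1) : dist (D * D * D) 1 ≤ ep (tr (D : ℍ[ℝ])) := by
  rw [Subtype.dist_eq, dist_eq_norm]
  simp only [Metric.unitSphere.coe_mul, Metric.unitSphere.coe_one]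
  rw [cube_eq (norm_coe D)]
  set t := tr (D : ℍ[ℝ])
  have : (t ^ 2 - 1) • (D : ℍ[ℝ]) - t • (1 : ℍ[ℝ]) - 1
      = (t + 1) • ((t - 1) • (D : ℍ[ℝ]) - 1) := by
    rw [smul_sub, smul_smul, show (t + 1) * (t - 1) = t ^ 2 - 1 by ring, add_smul, one_smul]
    abel
  rw [this, norm_smul, Real.norm_eq_abs, ep]
  refine mul_le_mul_of_nonneg_left ?_ (abs_nonneg _)
  refine (norm_sub_le _ _).trans ?_
  rw [norm_smul, norm_coe, Real.norm_eq_abs, mul_one, norm_one]

/-- the word map on the group -/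
noncomputable def GU (A B : Sp1) : Sp1 := A * B * (A * A * B * (A * A * B))
/-- the word map on the group -/
noncomputable def GV (A B : Sp1) : Sp1 := B * A * (A * A * B * (A * A * B))

theorem coe_GU (A B : Sp1) : ((GU A B : Sp1) : ℍ[ℝ]) = WU A B := by
  simp [GU, WU]

theorem coe_GV (A B : Sp1) : ((GV A B : Sp1) : ℍ[ℝ]) = WV A B := by
  simp [GV, WV]

/-- the third auxiliary coordinate on the group -/
noncomputable def td (A B : Sp1) : ℝ := tt (tr (A : ℍ[ℝ])) (tr (B : ℍ[ℝ])) (tr ((A : ℍ[ℝ]) * B))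

theorem td_eq (A B : Sp1) : td A B = tr ((A * A * B : Sp1) : ℍ[ℝ]) := by
  simp only [Metric.unitSphere.coe_mul]
  rw [tr_D (norm_coe A), td, tt]

theorem dist_GU (A B : Sp1) : dist (GU A B) A⁻¹ ≤ ep (td A B) := by
  have e : A⁻¹ = A * B * (A * A * B)⁻¹ := by group
  have : dist (GU A B) A⁻¹ = dist (A * A * B * (A * A * B) * (A * A * B)) 1 := by
    rw [← sdist_one, GU, e, sdist_left]
  rw [this, td_eq]
  exact dist_cube_one _

theorem dist_GV (A B : Sp1) : dist (GV A B) (B * A * (A * A * B)⁻¹) ≤ ep (td A B) := by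
  have : dist (GV A B) (B * A * (A * A * B)⁻¹) = dist (A * A * B * (A * A * B) * (A * A * B)) 1 := by
    rw [← sdist_one, GV, sdist_left]
  rw [this, td_eq]
  exact dist_cube_one _

/-- minus one -/
noncomputable def mo : Sp1 := -1

theorem coe_mo : ((mo : Sp1) : ℍ[ℝ]) = -1 := by
  have : ((mo : Sp1) : ℍ[ℝ]) = -((1 : Sp1) : ℍ[ℝ]) := rfl
  rw [this, Metric.unitSphere.coe_one]

theorem mo_comm (A : Sp1) : mo * A = A * mo := by
  apply Subtype.ext
  simp only [Metric.unitSphere.coe_mul, coe_mo]; simp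

theorem dist_sq_mo (C : Sp1) : dist (C * C) mo = |tr (C : ℍ[ℝ])| := by
  rw [Subtype.dist_eq, dist_eq_norm]
  simp only [Metric.unitSphere.coe_mul, coe_mo]
  rw [sq_eq (norm_coe C)]
  simp [norm_smul, norm_coe]

/-- error for the cube of the second letter -/
noncomputable def e3 (y : ℝ) : ℝ := |y - 1| * (|y + 1| + 1)
/-- error for the fifth power of the first letter -/
noncomputable def e5 (x : ℝ) : ℝ := |x ^ 2 - x - 1| * (|x ^ 2 + x - 1| + |x + 1|)

theorem dist_cube_mo (C : Sp1) : dist (C * C * C) mo ≤ e3 (tr (C : ℍ[ℝ])) := by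
  rw [Subtype.dist_eq, dist_eq_norm]
  simp only [Metric.unitSphere.coe_mul, coe_mo]
  rw [cube_eq (norm_coe C)]
  set t := tr (C : ℍ[ℝ])
  have : (t ^ 2 - 1) • (C : ℍ[ℝ]) - t • (1 : ℍ[ℝ]) - -1
      = (t - 1) • ((t + 1) • (C : ℍ[ℝ]) - 1) := by
    rw [smul_sub, smul_smul, show (t - 1) * (t + 1) = t ^ 2 - 1 by ring, sub_smul t 1 (1 : ℍ[ℝ]),
      one_smul]
    abel
  rw [this, norm_smul, Real.norm_eq_abs, e3]
  refine mul_le_mul_of_nonneg_left ?_ (abs_nonneg _)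
  refine (norm_sub_le _ _).trans ?_
  rw [norm_smul, norm_coe, Real.norm_eq_abs, mul_one, norm_one]

theorem dist_five_mo (C : Sp1) : dist (C * C * (C * C * C)) mo ≤ e5 (tr (C : ℍ[ℝ])) := by
  rw [Subtype.dist_eq, dist_eq_norm]
  simp only [Metric.unitSphere.coe_mul, coe_mo]
  rw [cube_eq (norm_coe C)]
  set t := tr (C : ℍ[ℝ]) with ht
  have h2 : (C : ℍ[ℝ]) * C = t • (C : ℍ[ℝ]) - 1 := sq_eq (norm_coe C)
  have : (C : ℍ[ℝ]) * C * ((t ^ 2 - 1) • (C : ℍ[ℝ]) - t • (1 : ℍ[ℝ])) - -1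
      = (t ^ 2 - t - 1) • ((t ^ 2 + t - 1) • (C : ℍ[ℝ]) - (t + 1) • (1 : ℍ[ℝ])) := by
    rw [h2, mul_sub, sub_mul, sub_mul]
    simp only [smul_mul_assoc, mul_smul_comm, h2, one_mul, mul_one]
    module
  rw [this, norm_smul, Real.norm_eq_abs, e5]
  refine mul_le_mul_of_nonneg_left ?_ (abs_nonneg _)
  refine (norm_sub_le _ _).trans ?_
  rw [norm_smul, norm_smul, norm_coe, Real.norm_eq_abs, Real.norm_eq_abs, mul_one, norm_one, mul_one]

theorem dist_word (A B : Sp1) :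
    dist (B * A * B⁻¹ * A⁻¹ * B * A⁻¹ * B⁻¹ * A * A) B
      ≤ 2 * |tr ((A : ℍ[ℝ]) * B)| + e3 (tr (B : ℍ[ℝ])) + e5 (tr (A : ℍ[ℝ])) := by
  set R : Sp1 := A * B * (A * B) with hR
  set R' : Sp1 := B * A * (B * A) with hR'
  have s1 : dist (B * A * B⁻¹ * A⁻¹ * B * A⁻¹ * B⁻¹ * A * A) B
      = dist (R⁻¹ * A * (B * B * B) * A * R'⁻¹ * (A * A * A)) 1 := by
    have e1 : B * A * B⁻¹ * A⁻¹ * B * A⁻¹ * B⁻¹ * A * A
        = (B * A) * (R⁻¹ * A * (B * B * B) * A * R'⁻¹ * (A * A * A)) * A⁻¹ := by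
      rw [hR, hR']; group
    have e2 : B = (B * A) * 1 * A⁻¹ := by group
    conv_lhs => rw [e1]
    rw [show dist (B * A * (R⁻¹ * A * (B * B * B) * A * R'⁻¹ * (A * A * A)) * A⁻¹) B
      = dist (B * A * (R⁻¹ * A * (B * B * B) * A * R'⁻¹ * (A * A * A)) * A⁻¹)
          ((B * A) * 1 * A⁻¹) by rw [← e2]]
    rw [sdist_right, sdist_left]
  have s2 : dist (mo⁻¹ * A * mo * A * mo⁻¹ * (A * A * A)) 1 = dist (A * A * (A * A * A)) mo := by
    have e : mo⁻¹ * A * mo * A * mo⁻¹ * (A * A * A) = mo⁻¹ * (A * A * (A * A * A)) := by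
      have h1 : A * mo * A = mo * (A * A) := by rw [← mo_comm, mul_assoc]
      have h2 : mo * (A * A) * mo⁻¹ = A * A := by
        rw [mo_comm, mul_assoc, mul_inv_cancel, mul_one]
      calc mo⁻¹ * A * mo * A * mo⁻¹ * (A * A * A)
          = mo⁻¹ * ((A * mo * A) * mo⁻¹) * (A * A * A) := by group
        _ = _ := by rw [h1, h2]; group
    rw [e, ← sdist_left mo]; simp
  have s3 : dist (R⁻¹ * A * (B * B * B) * A * R'⁻¹ * (A * A * A))
      (mo⁻¹ * A * mo * A * mo⁻¹ * (A * A * A)) ≤ dist R mo + dist (B * B * B) mo + dist R' mo := by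
    rw [sdist_right]
    refine (sdist_mul _ _ _ _).trans ?_
    rw [sdist_inv]
    refine add_le_add ?_ le_rfl
    rw [sdist_right]
    refine (sdist_mul _ _ _ _).trans ?_
    refine add_le_add ?_ le_rfl
    rw [sdist_right, sdist_inv]
  have r1 : dist R mo = |tr ((A : ℍ[ℝ]) * B)| := by
    rw [hR, dist_sq_mo, Metric.unitSphere.coe_mul]
  have r2 : dist R' mo = |tr ((A : ℍ[ℝ]) * B)| := by
    rw [hR', dist_sq_mo, Metric.unitSphere.coe_mul, tr_mul_comm]
  have r3 := dist_cube_mo B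
  have r5 := dist_five_mo A
  rw [s1]
  have := dist_triangle (R⁻¹ * A * (B * B * B) * A * R'⁻¹ * (A * A * A))
    (mo⁻¹ * A * mo * A * mo⁻¹ * (A * A * A)) 1
  rw [s2] at this
  linarith

/-- displacement of the second iterate -/
theorem disp_two (A B : Sp1) :
    dist (GU (GU A B) (GV A B)) A ≤ ep (td A B) + ep (td (GU A B) (GV A B)) ∧
    dist (GV (GU A B) (GV A B)) B ≤ ep (td (GU A B) (GV A B)) + 5 * ep (td A B)
      + (2 * |tr ((A : ℍ[ℝ]) * B)| + e3 (tr (B : ℍ[ℝ])) + e5 (tr (A : ℍ[ℝ]))) := by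
  set U := GU A B
  set V := GV A B
  have hU : dist U A⁻¹ ≤ ep (td A B) := dist_GU A B
  have hV : dist V (B * A * (A * A * B)⁻¹) ≤ ep (td A B) := dist_GV A B
  constructor
  · have h1 := dist_GU U V
    have h2 : dist U⁻¹ A ≤ ep (td A B) := by
      rw [← sdist_inv]; simpa using hU
    have := dist_triangle (GU U V) U⁻¹ A
    linarith
  · have h1 := dist_GV U V
    set V0 := B * A * (A * A * B)⁻¹ with hV0
    have h2 : dist (V * U * (U * U * V)⁻¹) (V0 * A⁻¹ * (A⁻¹ * A⁻¹ * V0)⁻¹) ≤ 5 * ep (td A B) := by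
      refine (sdist_mul _ _ _ _).trans ?_
      rw [sdist_inv]
      have a1 := sdist_mul V U V0 A⁻¹
      have a2 := sdist_mul (U * U) V (A⁻¹ * A⁻¹) V0
      have a3 := sdist_mul U U A⁻¹ A⁻¹
      linarith
    have h3 : V0 * A⁻¹ * (A⁻¹ * A⁻¹ * V0)⁻¹ = B * A * B⁻¹ * A⁻¹ * B * A⁻¹ * B⁻¹ * A * A := by
      rw [hV0, ← mul_inv_eq_one]; group
    rw [h3] at h2
    have h4 := dist_word A B
    have t1 := dist_triangle (GV U V) (V * U * (U * U * V)⁻¹) B
    have t2 := dist_triangle (V * U * (U * U * V)⁻¹)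
      (B * A * B⁻¹ * A⁻¹ * B * A⁻¹ * B⁻¹ * A * A) B
    linarith

end Q71.CO
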