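import Mathlib

/-!
# The odometer on the 2-adic integers, seen in base 8
-/

open MeasureTheory Filter Topology Set

namespace Q71.CO

/-- the last base-8 digit -/
noncomputable def dg (x : ℤ_[2]) : ℕ := x.appr 3

theorem dg_lt (x : ℤ_[2]) : dg x < 8 := by
  have := PadicInt.appr_lt x 3
  simpa [dg] using this

theorem exists_q (x : ℤ_[2]) : ∃ y : ℤ_[2], x = 8 * y + dg x := by
  have h := PadicInt.appr_spec 3 x
  rw [Ideal.mem_span_singleton] at h
  obtain ⟨y, hy⟩ := h
  refine ⟨y, ?_⟩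
  have h8 : ((2 : ℕ) : ℤ_[2]) ^ 3 = 8 := by norm_num
  rw [h8] at hy
  rw [← hy]; simp [dg]

/-- the remaining digits -/
noncomputable def qt (x : ℤ_[2]) : ℤ_[2] := (exists_q x).choose

theorem qt_spec (x : ℤ_[2]) : x = 8 * qt x + dg x := (exists_q x).choose_spec

theorem eight_ne : (8 : ℤ_[2]) ≠ 0 := by
  have : (8 : ℤ_[2]) = ((8 : ℕ) : ℤ_[2]) := by norm_num
  rw [this]
  exact Nat.cast_ne_zero.mpr (by norm_num)

theorem uniq {y y' : ℤ_[2]} {n n' : ℕ} (hn : n < 8) (hn' : n' < 8)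
    (h : 8 * y + n = 8 * y' + n') : y = y' ∧ n = n' := by
  have h1 : (((n : ℤ) - n' : ℤ) : ℤ_[2]) = 8 * (y' - y) := by
    push_cast; linear_combination h
  have h2 : ‖(((n : ℤ) - n' : ℤ) : ℤ_[2])‖ ≤ (2 : ℝ) ^ (-(3 : ℕ) : ℤ) := by
    rw [h1, norm_mul]
    have h8 : ‖(8 : ℤ_[2])‖ = (2 : ℝ) ^ (-(3 : ℕ) : ℤ) := by
      have : (8 : ℤ_[2]) = ((2 : ℕ) : ℤ_[2]) ^ 3 := by norm_num
      rw [this, PadicInt.norm_p_pow]; norm_num
    rw [h8]
    have := PadicInt.norm_le_one (y' - y)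
    exact mul_le_of_le_one_right (by positivity) this
  have h3 := (PadicInt.norm_int_le_pow_iff_dvd (p := 2) (k := (n : ℤ) - n') (n := 3)).mp
    (by exact_mod_cast h2)
  have h4 : n = n' := by
    norm_num at h3
    omega
  refine ⟨?_, h4⟩
  subst h4
  have : (8 : ℤ_[2]) * y = 8 * y' := by linear_combination h
  exact mul_left_cancel₀ eight_ne this

theorem qt_dg {y : ℤ_[2]} {n : ℕ} (hn : n < 8) : qt (8 * y + n) = y ∧ dg (8 * y + n) = n := by
  have h := qt_spec (8 * y + n)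
  obtain ⟨h1, h2⟩ := uniq hn (dg_lt _) h
  exact ⟨h1.symm, h2.symm⟩

theorem hT1 (x : ℤ_[2]) (h : dg x < 7) : dg (x + 1) = dg x + 1 ∧ qt (x + 1) = qt x := by
  have h0 : x + 1 = 8 * qt x + ((dg x + 1 : ℕ) : ℤ_[2]) := by
    conv_lhs => rw [qt_spec x]
    push_cast; ring
  have := qt_dg (y := qt x) (n := dg x + 1) (by omega)
  rw [← h0] at this
  exact ⟨this.2, this.1⟩

theorem hT2 (x : ℤ_[2]) (h : dg x = 7) : dg (x + 1) = 0 ∧ qt (x + 1) = qt x + 1 := by
  have h0 : x + 1 = 8 * (qt x + 1) + ((0 : ℕ) : ℤ_[2]) := by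
    conv_lhs => rw [qt_spec x, h]
    push_cast; ring
  have := qt_dg (y := qt x + 1) (n := 0) (by omega)
  rw [← h0] at this
  exact ⟨this.2, this.1⟩

/-- `x` and `x'` close have the same digit -/
theorem dg_eq_of_norm {x x' : ℤ_[2]} (h : ‖x - x'‖ ≤ (2 : ℝ) ^ (-(3 : ℕ) : ℤ)) :
    dg x = dg x' ∧ x - x' = 8 * (qt x - qt x') := by
  have h1 := (PadicInt.norm_le_pow_iff_mem_span_pow (x - x') 3).mp (by exact_mod_cast h)
  rw [Ideal.mem_span_singleton] at h1
  obtain ⟨z, hz⟩ := h1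
  have h8 : ((2 : ℕ) : ℤ_[2]) ^ 3 = 8 := by norm_num
  rw [h8] at hz
  have h2 : x = 8 * (z + qt x') + dg x' := by
    have := qt_spec x'
    linear_combination hz + this
  have h3 := qt_dg (y := z + qt x') (dg_lt x')
  rw [← h2] at h3
  refine ⟨h3.2, ?_⟩
  rw [h3.1, hz]; ring

theorem norm_eight : ‖(8 : ℤ_[2])‖ = 1 / 8 := by
  have : (8 : ℤ_[2]) = ((2 : ℕ) : ℤ_[2]) ^ 3 := by norm_num
  rw [this, PadicInt.norm_p_pow]; norm_num

theorem continuous_qt : Continuous qt := by
  rw [Metric.continuous_iff]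
  intro x ε hε
  refine ⟨min (ε / 8) (1 / 8), by positivity, fun y hy => ?_⟩
  rw [dist_eq_norm] at hy ⊢
  have h1 : ‖y - x‖ ≤ (2 : ℝ) ^ (-(3 : ℕ) : ℤ) := by
    have := (lt_min_iff.mp hy).2.le
    norm_num at this ⊢; exact this
  have h2 := (dg_eq_of_norm h1).2
  have h3 : ‖y - x‖ = 1 / 8 * ‖qt y - qt x‖ := by rw [h2, norm_mul, norm_eight]
  have h4 := (lt_min_iff.mp hy).1
  rw [h3] at h4
  linarith

theorem continuous_dg : Continuous dg := by
  rw [Metric.continuous_iff]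
  intro x ε hε
  refine ⟨1 / 8, by positivity, fun y hy => ?_⟩
  rw [dist_eq_norm] at hy
  have h1 : ‖y - x‖ ≤ (2 : ℝ) ^ (-(3 : ℕ) : ℤ) := by
    have := hy.le
    norm_num at this ⊢; exact this
  rw [(dg_eq_of_norm h1).1]; simpa using hε

theorem qt_add (x : ℤ_[2]) (n : ℕ) : qt (x + 8 * n) = qt x + n ∧ dg (x + 8 * n) = dg x := by
  have h0 : x + 8 * n = 8 * (qt x + n) + dg x := by
    conv_lhs => rw [qt_spec x]
    ring
  rw [h0]
  exact qt_dg (dg_lt x)

/-- the set of points all of whose base-8 digits are 6 or 7 -/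
def NN : Set ℤ_[2] := {x | ∀ i, 6 ≤ dg (qt^[i] x)}

/-- moving by `8 ^ i * m` with `m` mod 8 in `{2,...,6}` leaves `NN` -/
theorem NN_move (i : ℕ) : ∀ (x : ℤ_[2]) (m : ℕ), x ∈ NN → 2 ≤ m % 8 → m % 8 ≤ 6 →
    x + ((8 ^ i * m : ℕ) : ℤ_[2]) ∉ NN := by
  induction i with
  | zero =>
    intro x m hx h2 h6 hx'
    have h1 : 6 ≤ dg x := by simpa using hx 0
    have h3 : 6 ≤ dg (x + ((8 ^ 0 * m : ℕ) : ℤ_[2])) := by simpa using hx' 0
    have h8 := dg_lt x
    obtain ⟨r, s, hrs, hs⟩ : ∃ r s : ℕ, dg x + m = 8 * r + s ∧ s < 6 := by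
      refine ⟨(dg x + m) / 8, (dg x + m) % 8, (Nat.div_add_mod _ _).symm, ?_⟩
      omega
    have h4 : x + ((8 ^ 0 * m : ℕ) : ℤ_[2]) = 8 * (qt x + r) + (s : ℤ_[2]) := by
      have e : ((dg x + m : ℕ) : ℤ_[2]) = ((8 * r + s : ℕ) : ℤ_[2]) := by rw [hrs]
      push_cast at e
      conv_lhs => rw [qt_spec x]
      push_cast
      linear_combination e
    rw [h4, (qt_dg (show s < 8 by omega)).2] at h3
    omega
  | succ i ih =>
    intro x m hx h2 h6 hx'
    have h1 : qt x ∈ NN := by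
      intro j
      have := hx (j + 1)
      simpa [Function.iterate_succ_apply] using this
    have e : x + ((8 ^ (i+1) * m : ℕ) : ℤ_[2]) = x + 8 * ((8 ^ i * m : ℕ) : ℤ_[2]) := by
      push_cast; ring
    rw [e] at hx'
    refine ih (qt x) m h1 h2 h6 ?_
    rw [← (qt_add x (8 ^ i * m)).1]
    intro j
    have := hx' (j + 1)
    simpa [Function.iterate_succ_apply] using this

theorem qt_iter_add (k : ℕ) : ∀ (x : ℤ_[2]) (n : ℕ),
    qt^[k] (x + ((8 ^ k * n : ℕ) : ℤ_[2])) = qt^[k] x + n := by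
  induction k with
  | zero => intro x n; simp
  | succ k ih =>
    intro x n
    have e : x + ((8 ^ (k+1) * n : ℕ) : ℤ_[2]) = x + 8 * ((8 ^ k * n : ℕ) : ℤ_[2]) := by
      push_cast; ring
    rw [Function.iterate_succ_apply, Function.iterate_succ_apply, e, (qt_add x _).1, ih]

section measure

variable [MeasurableSpace ℤ_[2]] [BorelSpace ℤ_[2]]

theorem null_of_disjoint (μ : Measure ℤ_[2]) [IsFiniteMeasure μ] [μ.IsAddLeftInvariant]
    (E : Set ℤ_[2]) (hE : MeasurableSet E) (n : ℕ → ℤ_[2])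
    (h : ∀ i j, i < j → ∀ x ∈ E, x + (n j - n i) ∉ E) : μ E = 0 := by
  have hpre : ∀ i, μ ((fun x => n i + x) ⁻¹' E) = μ E := fun i => measure_preimage_add μ (n i) E
  have hdis : Pairwise (Function.onFun Disjoint fun i => (fun x => n i + x) ⁻¹' E) := by
    intro i j hij
    simp only [Function.onFun]
    wlog hlt : i < j generalizing i j
    · exact (this hij.symm (lt_of_le_of_ne (not_lt.mp hlt) hij.symm)).symm
    rw [Set.disjoint_left]
    intro x hx hx'
    simp only [mem_preimage] at hx hx'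
    have := h i j hlt _ hx
    apply this
    convert hx' using 1
    ring
  by_contra hne
  have h1 := measure_iUnion (μ := μ) hdis (fun i => (measurable_const_add (n i)) hE)
  simp only [hpre] at h1
  rw [ENNReal.tsum_const_eq_top_of_ne_zero hne] at h1
  exact measure_ne_top μ _ h1

theorem measurableSet_NN : MeasurableSet NN := by
  have : NN = ⋂ i, {x | 6 ≤ dg (qt^[i] x)} := by ext x; simp [NN]
  rw [this]
  refine MeasurableSet.iInter fun i => ?_
  have hm : Measurable (fun x => dg (qt^[i] x)) :=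
    continuous_dg.measurable.comp (continuous_qt.iterate i).measurable
  exact hm (measurableSet_Ici (a := 6))

theorem null_NN (μ : Measure ℤ_[2]) [IsFiniteMeasure μ] [μ.IsAddLeftInvariant] (k : ℕ) :
    μ {x | qt^[k] x ∈ NN} = 0 := by
  refine null_of_disjoint μ _ ((continuous_qt.iterate k).measurable measurableSet_NN)
    (fun i => ((8 ^ k * (2 * 8 ^ i) : ℕ) : ℤ_[2])) ?_
  intro i j hij x hx hx'
  have e : ((8 ^ k * (2 * 8 ^ j) : ℕ) : ℤ_[2]) - ((8 ^ k * (2 * 8 ^ i) : ℕ) : ℤ_[2])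
      = ((8 ^ k * (8 ^ i * (2 * 8 ^ (j - i) - 2)) : ℕ) : ℤ_[2]) := by
    have hle : 2 ≤ 2 * 8 ^ (j - i) := by have := Nat.one_le_pow (j-i) 8 (by norm_num); omega
    obtain ⟨m, rfl⟩ : ∃ m, j = i + m := ⟨j - i, by omega⟩
    rw [Nat.add_sub_cancel_left] at hle ⊢
    push_cast [Nat.cast_sub hle]
    ring
  simp only [mem_ofPred_eq] at hx hx'
  rw [e, qt_iter_add] at hx'
  refine NN_move i _ (2 * 8 ^ (j - i) - 2) hx ?_ ?_ hx' <;>
  · obtain ⟨m, hm⟩ : ∃ m, j - i = m + 1 := ⟨j - i - 1, by omega⟩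
    rw [hm, pow_succ]
    have := Nat.one_le_pow m 8 (by norm_num)
    omega

/-- almost every point has a digit different from 7 -/
theorem ae_digit (μ : Measure ℤ_[2]) [IsFiniteMeasure μ] [μ.IsAddLeftInvariant] :
    ∀ᵐ x ∂μ, ∃ i, dg (qt^[i] x) < 7 := by
  have h0 : μ {x : ℤ_[2] | ¬ ∃ i, dg (qt^[i] x) < 7} = 0 := by
    refine measure_mono_null ?_ (null_NN μ 0)
    intro x hx i
    simp only [mem_ofPred_eq, not_exists, not_lt] at hx
    have := hx i
    simp only [Function.iterate_zero, id]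
    omega
  exact h0

theorem ae_not_NN (μ : Measure ℤ_[2]) [IsFiniteMeasure μ] [μ.IsAddLeftInvariant] :
    ∀ᵐ x ∂μ, ∀ k, qt^[k] x ∉ NN := by
  rw [ae_all_iff]
  intro k
  have := null_NN μ k
  rw [ae_iff]; simpa using this

end measure

/-! ### the letter function -/

/-- the column maps of the substitution -/
def MM (n : ℕ) (t : Bool) : Bool :=
  match n with
  | 0 => true
  | 1 => false
  | 2 => false
  | 3 => true
  | 4 => false
  | 5 => false
  | 6 => !t
  | _ => t

theorem MM_const {n : ℕ} (h : n < 6) (s t : Bool) : MM n s = MM n t := by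
  interval_cases n <;> rfl

/-- finite approximations of the letter function -/
noncomputable def ck : ℕ → ℤ_[2] → Bool
  | 0, _ => false
  | k + 1, x => MM (dg x) (ck k (qt x))

theorem ck_const (i : ℕ) : ∀ x, dg (qt^[i] x) < 6 → ∀ k ≥ i + 1, ck k x = ck (i + 1) x := by
  induction i with
  | zero =>
    intro x hx k hk
    obtain ⟨m, rfl⟩ : ∃ m, k = m + 1 := ⟨k - 1, by omega⟩
    exact MM_const (by simpa using hx) _ _
  | succ i ih =>
    intro x hx k hk
    obtain ⟨m, rfl⟩ : ∃ m, k = m + 1 := ⟨k - 1, by omega⟩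
    have := ih (qt x) (by simpa [Function.iterate_succ_apply] using hx) m (by omega)
    simp only [ck, this]

open Classical in
/-- the letter function -/
noncomputable def letter (x : ℤ_[2]) : Bool := decide (∃ K, ∀ k ≥ K, ck k x = true)

theorem letter_eq {x : ℤ_[2]} {b : Bool} {K : ℕ} (h : ∀ k ≥ K, ck k x = b) : letter x = b := by
  unfold letter
  cases b with
  | true => simp only [decide_eq_true_eq]; exact ⟨K, h⟩
  | false =>
    simp only [decide_eq_false_iff_not]
    rintro ⟨K', h'⟩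
    have h1 := h (max K K') (le_max_left _ _)
    have h2 := h' (max K K') (le_max_right _ _)
    rw [h1] at h2; cases h2

theorem letter_rel {x : ℤ_[2]} (h : qt x ∉ NN) : letter x = MM (dg x) (letter (qt x)) := by
  simp only [NN, mem_ofPred_eq, not_forall, not_le] at h
  obtain ⟨i, hi⟩ := h
  have h1 := ck_const i (qt x) hi
  rw [letter_eq h1]
  refine letter_eq (K := i + 2) fun k hk => ?_
  obtain ⟨m, rfl⟩ : ∃ m, k = m + 1 := ⟨k - 1, by omega⟩
  simp only [ck]
  rw [h1 m (by omega)]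
  rfl

theorem measurable_ck [MeasurableSpace ℤ_[2]] [BorelSpace ℤ_[2]] (k : ℕ) : Measurable (ck k) := by
  induction k with
  | zero => exact measurable_const
  | succ k ih =>
    have : Measurable (fun p : ℕ × Bool => MM p.1 p.2) := measurable_of_countable _
    exact this.comp (continuous_dg.measurable.prodMk (ih.comp continuous_qt.measurable))

theorem measurable_letter [MeasurableSpace ℤ_[2]] [BorelSpace ℤ_[2]] : Measurable letter := by
  refine measurable_to_bool ?_
  have : letter ⁻¹' {true} = ⋃ K, ⋂ k, ⋂ (_ : k ≥ K), {x | ck k x = true} := by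
    ext x
    simp [letter]
  rw [this]
  refine MeasurableSet.iUnion fun K => MeasurableSet.iInter fun k => MeasurableSet.iInter fun _ => ?_
  exact (measurable_ck k) (measurableSet_singleton true)

theorem ergodic_odo [MeasurableSpace ℤ_[2]] [BorelSpace ℤ_[2]] (μ : Measure ℤ_[2])
    [IsFiniteMeasure μ] [μ.IsAddLeftInvariant] [μ.InnerRegular] :
    Ergodic (fun x : ℤ_[2] => x + 1) μ := by
  have h := ergodic_add_left_of_denseRange_nsmul (G := ℤ_[2]) (g := 1) (by
    simpa using (PadicInt.denseRange_natCast (p := 2))) μ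
  simpa [add_comm] using h

end Q71.CO
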