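import Mathlib

/-!
# Cocycles over a map with a tower structure of constant height 8

`T` is a map with a tower structure: every point `x` has a position `d x < 8` in its tower and a
base point `q x`.  The letter function `ℓ` satisfies `ℓ x = M (d x) (ℓ (q x))`.  Two simple cocycles
`φ ∘ ℓ`, `ψ ∘ ℓ` whose induced cocycles approach each other summably fast are cohomologous.
-/

open MeasureTheory Filter Topology Set

namespace Q71.CO

section

variable {G : Type*} [Group G]

/-- ordered product of the first `n` letters -/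
def Pr (M : ℕ → Bool → Bool) (φ : Bool → G) (t : Bool) : ℕ → G
  | 0 => 1
  | n + 1 => φ (M n t) * Pr M φ t n

/-- the induced cocycle -/
def Wg (M : ℕ → Bool → Bool) (φ : Bool → G) : Bool → G := fun t => Pr M φ t 8

variable {X : Type*}

/-- the transfer function after `k` steps -/
def fk (M : ℕ → Bool → Bool) (q : X → X) (d : X → ℕ) (l : X → Bool) :
    ℕ → (Bool → G) → (Bool → G) → X → G
  | 0, _, _, _ => 1
  | k + 1, φ, ψ, x =>
      Pr M ψ (l (q x)) (d x) * fk M q d l k (Wg M φ) (Wg M ψ) (q x)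
        * (Pr M φ (l (q x)) (d x))⁻¹

theorem fk_eq (M : ℕ → Bool → Bool) (T q : X → X) (d : X → ℕ) (l : X → Bool)
    (hd : ∀ x, d x < 8)
    (hT1 : ∀ x, d x < 7 → d (T x) = d x + 1 ∧ q (T x) = q x)
    (hT2 : ∀ x, d x = 7 → d (T x) = 0 ∧ q (T x) = T (q x)) :
    ∀ (k : ℕ) (φ ψ : Bool → G) (x : X),
      (∀ i < k, l (q^[i] x) = M (d (q^[i] x)) (l (q^[i+1] x))) →
      (∃ i < k, d (q^[i] x) < 7) →
      fk M q d l k φ ψ (T x) * φ (l x) = ψ (l x) * fk M q d l k φ ψ x := by
  intro k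
  induction k with
  | zero => 
    intro φ ψ x _ h
    obtain ⟨i, hi, _⟩ := h
    omega
  | succ k ih =>
    intro φ ψ x hl hi
    have hl0 : l x = M (d x) (l (q x)) := by simpa using hl 0 (by omega)
    by_cases h7 : d x < 7
    · obtain ⟨h1, h2⟩ := hT1 x h7
      simp only [fk, h1, h2, Pr, hl0]
      group
    · have h7' : d x = 7 := by have := hd x; omega
      obtain ⟨h1, h2⟩ := hT2 x h7'
      have ih' := ih (Wg M φ) (Wg M ψ) (q x) (fun i hi' => by
        have := hl (i + 1) (by omega)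
        simpa [Function.iterate_succ_apply] using this) (by
        obtain ⟨i, hi1, hi2⟩ := hi
        cases i with
        | zero => simp at hi2; omega
        | succ i => exact ⟨i, by omega, by simpa [Function.iterate_succ_apply] using hi2⟩)
      have hW : ∀ χ : Bool → G, Wg M χ (l (q x)) = χ (l x) * Pr M χ (l (q x)) 7 := by
        intro χ
        rw [hl0, h7']; rfl
      rw [hW, hW] at ih'
      have h0 : ∀ (χ : Bool → G) (t : Bool), Pr M χ t 0 = 1 := fun _ _ => rfl
      simp only [fk, h1, h2, h0, h7', inv_one, mul_one, one_mul]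
      calc fk M q d l k (Wg M φ) (Wg M ψ) (T (q x)) * φ (l x)
          = (fk M q d l k (Wg M φ) (Wg M ψ) (T (q x)) * (φ (l x) * Pr M φ (l (q x)) 7))
              * (Pr M φ (l (q x)) 7)⁻¹ := by group
        _ = _ := by rw [ih']; group

variable [MetricSpace G]

theorem dist_Pr (hl : ∀ a b c : G, dist (a * b) (a * c) = dist b c)
    (hr : ∀ a b c : G, dist (b * a) (c * a) = dist b c)
    (M : ℕ → Bool → Bool) (φ ψ : Bool → G) (t : Bool) (n : ℕ) :
    dist (Pr M φ t n) (Pr M ψ t n) ≤ n * dist φ ψ := by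
  induction n with
  | zero => simp [Pr]
  | succ n ih =>
    simp only [Pr]
    calc dist (φ (M n t) * Pr M φ t n) (ψ (M n t) * Pr M ψ t n)
        ≤ dist (φ (M n t) * Pr M φ t n) (ψ (M n t) * Pr M φ t n)
          + dist (ψ (M n t) * Pr M φ t n) (ψ (M n t) * Pr M ψ t n) := dist_triangle _ _ _
      _ = dist (φ (M n t)) (ψ (M n t)) + dist (Pr M φ t n) (Pr M ψ t n) := by rw [hr, hl]
      _ ≤ dist φ ψ + n * dist φ ψ := add_le_add (dist_le_pi_dist φ ψ _) ih
      _ = _ := by push_cast; ring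

theorem dist_Wg (hl : ∀ a b c : G, dist (a * b) (a * c) = dist b c)
    (hr : ∀ a b c : G, dist (b * a) (c * a) = dist b c)
    (M : ℕ → Bool → Bool) (φ ψ : Bool → G) :
    dist (Wg M φ) (Wg M ψ) ≤ 8 * dist φ ψ := by
  rw [dist_pi_le_iff (by positivity)]
  intro t
  have := dist_Pr hl hr M φ ψ t 8
  simpa [Wg] using this

theorem dist_fk (hl : ∀ a b c : G, dist (a * b) (a * c) = dist b c)
    (hr : ∀ a b c : G, dist (b * a) (c * a) = dist b c)
    (M : ℕ → Bool → Bool) (q : X → X) (d : X → ℕ) (l : X → Bool) (hd : ∀ x, d x < 8) :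
    ∀ (k : ℕ) (φ ψ : Bool → G) (x : X),
      dist (fk M q d l k φ ψ x) (fk M q d l (k+1) φ ψ x)
        ≤ 8 * dist ((Wg M)^[k] φ) ((Wg M)^[k] ψ) := by
  intro k
  induction k with
  | zero =>
    intro φ ψ x
    simp only [fk, mul_one, Function.iterate_zero, id]
    have h1 : dist (1 : G) (Pr M ψ (l (q x)) (d x) * (Pr M φ (l (q x)) (d x))⁻¹)
        = dist (Pr M φ (l (q x)) (d x)) (Pr M ψ (l (q x)) (d x)) := by
      rw [← hr (Pr M φ (l (q x)) (d x)) 1]; simp
    rw [h1]
    refine (dist_Pr hl hr M φ ψ _ _).trans ?_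
    have : (d x : ℝ) ≤ 8 := by exact_mod_cast (hd x).le
    exact mul_le_mul_of_nonneg_right this dist_nonneg
  | succ k ih =>
    intro φ ψ x
    have e1 : fk M q d l (k+1) φ ψ x = Pr M ψ (l (q x)) (d x) * fk M q d l k (Wg M φ) (Wg M ψ) (q x)
        * (Pr M φ (l (q x)) (d x))⁻¹ := rfl
    have e2 : fk M q d l (k+1+1) φ ψ x = Pr M ψ (l (q x)) (d x)
        * fk M q d l (k+1) (Wg M φ) (Wg M ψ) (q x) * (Pr M φ (l (q x)) (d x))⁻¹ := rfl
    rw [e1, e2, hr, hl, Function.iterate_succ_apply, Function.iterate_succ_apply]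
    exact ih _ _ _

variable [MeasurableSpace X] [MeasurableSpace G] [BorelSpace G] [MeasurableMul₂ G]
  [MeasurableInv G]

omit [MetricSpace G] [BorelSpace G] in
theorem measurable_fk (M : ℕ → Bool → Bool) (q : X → X) (d : X → ℕ) (l : X → Bool)
    (hq : Measurable q) (hdm : Measurable d) (hlm : Measurable l) :
    ∀ (k : ℕ) (φ ψ : Bool → G), Measurable (fk M q d l k φ ψ) := by
  intro k
  induction k with
  | zero => intro φ ψ; exact measurable_const
  | succ k ih =>
    intro φ ψ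
    have h1 : ∀ χ : Bool → G, Measurable (fun x => Pr M χ (l (q x)) (d x)) := by
      intro χ
      have : Measurable (fun p : Bool × ℕ => Pr M χ p.1 p.2) := measurable_of_countable _
      exact this.comp ((hlm.comp hq).prodMk hdm)
    exact ((h1 ψ).mul ((ih _ _).comp hq)).mul (h1 φ).inv

/-- the tower lemma -/
theorem tower [CompleteSpace G] (μ : Measure X)
    (hl : ∀ a b c : G, dist (a * b) (a * c) = dist b c)
    (hr : ∀ a b c : G, dist (b * a) (c * a) = dist b c)
    (hcm : Continuous fun p : G × G => p.1 * p.2)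
    (M : ℕ → Bool → Bool) (T q : X → X) (d : X → ℕ) (l : X → Bool)
    (hq : Measurable q) (hdm : Measurable d) (hlm : Measurable l)
    (hd : ∀ x, d x < 8)
    (hT1 : ∀ x, d x < 7 → d (T x) = d x + 1 ∧ q (T x) = q x)
    (hT2 : ∀ x, d x = 7 → d (T x) = 0 ∧ q (T x) = T (q x))
    (hla : ∀ᵐ x ∂μ, ∀ i, l (q^[i] x) = M (d (q^[i] x)) (l (q^[i+1] x)))
    (h7 : ∀ᵐ x ∂μ, ∃ i, d (q^[i] x) < 7)
    (φ ψ : Bool → G) (hs : Summable fun k => dist ((Wg M)^[k] φ) ((Wg M)^[k] ψ)) :
    ∃ f : X → G, Measurable f ∧ ∀ᵐ x ∂μ, ψ (l x) = f (T x) * φ (l x) * (f x)⁻¹ := by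
  have hlim : ∀ x, ∃ y, Tendsto (fun k => fk M q d l k φ ψ x) atTop (𝓝 y) := by
    intro x
    refine cauchySeq_tendsto_of_complete
      (cauchySeq_of_dist_le_of_summable (fun k => 8 * dist ((Wg M)^[k] φ) ((Wg M)^[k] ψ)) ?_
        (hs.mul_left 8))
    intro k
    exact dist_fk hl hr M q d l hd k φ ψ x
  choose f hf using hlim
  refine ⟨f, measurable_of_tendsto_metrizable (measurable_fk M q d l hq hdm hlm · φ ψ)
    (tendsto_pi_nhds.mpr hf), ?_⟩
  filter_upwards [hla, h7] with x h1 h2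
  obtain ⟨i, hi⟩ := h2
  have e : ∀ k ≥ i + 1, fk M q d l k φ ψ (T x) * φ (l x) = ψ (l x) * fk M q d l k φ ψ x := by
    intro k hk
    exact fk_eq M T q d l hd hT1 hT2 k φ ψ x (fun j _ => h1 j) ⟨i, by omega, hi⟩
  have t1 : Tendsto (fun k => fk M q d l k φ ψ (T x) * φ (l x)) atTop (𝓝 (f (T x) * φ (l x))) :=
    (hcm.tendsto (f (T x), φ (l x))).comp ((hf (T x)).prodMk_nhds tendsto_const_nhds)
  have t2 : Tendsto (fun k => ψ (l x) * fk M q d l k φ ψ x) atTop (𝓝 (ψ (l x) * f x)) :=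
    (hcm.tendsto (ψ (l x), f x)).comp (tendsto_const_nhds.prodMk_nhds (hf x))
  have t3 := t1.congr' (eventually_atTop.mpr ⟨i + 1, e⟩)
  have := tendsto_nhds_unique t3 t2
  rw [this, mul_assoc, mul_inv_cancel, mul_one]

end

end Q71.CO
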