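import Pool.Agent.Q71.CO.Map
import Pool.Agent.Q71.CO.Tower
import Pool.Agent.Q71.CO.Odo

/-!
# An open set of cohomologous simple cocycles over the odometer
-/

open Quaternion Filter Topology MeasureTheory

namespace Q71.CO

/-- trace coordinates -/
noncomputable def tau (φ : Bool → Sp1) : ℝ × ℝ × ℝ :=
  (tr (φ false : ℍ[ℝ]), tr (φ true : ℍ[ℝ]), tr ((φ false : ℍ[ℝ]) * φ true))

theorem continuous_tr : Continuous tr := by
  unfold tr
  exact continuous_const.mul Quaternion.continuous_re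

theorem continuous_tau : Continuous tau := by
  have h1 : ∀ b, Continuous fun φ : Bool → Sp1 => (φ b : ℍ[ℝ]) := fun b =>
    continuous_subtype_val.comp (continuous_apply b)
  exact (continuous_tr.comp (h1 false)).prodMk
    ((continuous_tr.comp (h1 true)).prodMk (continuous_tr.comp ((h1 false).mul (h1 true))))

theorem W_false (φ : Bool → Sp1) : Wg MM φ false = GU (φ false) (φ true) := by
  simp only [Wg, Pr, MM, GU, mul_one, Bool.not_false]
  group

theorem W_true (φ : Bool → Sp1) : Wg MM φ true = GV (φ false) (φ true) := by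
  simp only [Wg, Pr, MM, GV, mul_one, Bool.not_true]
  group

theorem tau_W (φ : Bool → Sp1) : tau (Wg MM φ) = FF (tau φ) := by
  simp only [tau, W_false, W_true, coe_GU, coe_GV, FF]
  rw [tr_WU (norm_coe _) (norm_coe _), tr_WV (norm_coe _) (norm_coe _),
    tr_WUV (norm_coe _) (norm_coe _)]

theorem tau_iter (φ : Bool → Sp1) (k : ℕ) : tau ((Wg MM)^[k] φ) = FF^[k] (tau φ) := by
  induction k with
  | zero => rfl
  | succ k ih => rw [Function.iterate_succ_apply', Function.iterate_succ_apply', tau_W, ih]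

theorem ep_nonneg (t : ℝ) : 0 ≤ ep t := by unfold ep; positivity
theorem e3_nonneg (t : ℝ) : 0 ≤ e3 t := by unfold e3; positivity
theorem e5_nonneg (t : ℝ) : 0 ≤ e5 t := by unfold e5; positivity

theorem disp (φ : Bool → Sp1) : dist (Wg MM (Wg MM φ)) φ ≤ err (tau φ) := by
  obtain ⟨h1, h2⟩ := disp_two (φ false) (φ true)
  have e1 : td (φ false) (φ true) = tt (tau φ).1 (tau φ).2.1 (tau φ).2.2 := rfl
  have e2 : td (GU (φ false) (φ true)) (GV (φ false) (φ true))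
      = tt (FF (tau φ)).1 (FF (tau φ)).2.1 (FF (tau φ)).2.2 := by
    rw [← tau_W]
    simp only [td, tau, W_false, W_true]
  rw [e1, e2] at h1 h2
  have n1 := ep_nonneg (tt (tau φ).1 (tau φ).2.1 (tau φ).2.2)
  have n2 := ep_nonneg (tt (FF (tau φ)).1 (FF (tau φ)).2.1 (FF (tau φ)).2.2)
  have n3 := e3_nonneg (tau φ).2.1
  have n5 := e5_nonneg (tau φ).1
  have nz := abs_nonneg (tau φ).2.2
  have herr : 0 ≤ err (tau φ) := by unfold err; positivity
  rw [dist_pi_le_iff herr]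
  intro b
  cases b with
  | false =>
    rw [W_false, W_false, W_true]
    refine h1.trans ?_
    unfold err; linarith
  | true =>
    rw [W_true, W_false, W_true]
    refine h2.trans ?_
    simp only [tau] at *
    unfold err; simp only; linarith

theorem six : ∃ C > 0, ∃ δ > 0, ∀ φ : Bool → Sp1, ‖tau φ - ps‖ < δ →
    dist ((Wg MM)^[6] φ) φ ≤ C * ‖tau φ - ps‖ ∧
    ‖tau ((Wg MM)^[6] φ) - ps‖ ≤ 1 / 2 * ‖tau φ - ps‖ := by
  obtain ⟨C1, hC1, δ1, hδ1, h1⟩ := lip1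
  obtain ⟨C2, hC2, δ2, hδ2, h2⟩ := err_bound
  obtain ⟨δ3, hδ3, h3⟩ := contr6
  -- work with K = max C1 1
  set K := max C1 1 with hK
  have hK1 : 1 ≤ K := le_max_right _ _
  have hK0 : 0 < K := by linarith
  set δ := min (min δ1 δ2 / K ^ 4) δ3 with hδ
  have hδ0 : 0 < δ := by positivity
  -- iterates
  have hit : ∀ i ≤ 4, ∀ p, ‖p - ps‖ < min δ1 δ2 / K ^ 4 → ‖FF^[i] p - ps‖ ≤ K ^ i * ‖p - ps‖ := by
    intro i
    induction i with
    | zero => intro _ p _; simp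
    | succ i ih =>
      intro hi p hp
      have h := ih (by omega) p hp
      have hlt : ‖FF^[i] p - ps‖ < δ1 := by
        have hK4 : K ^ i ≤ K ^ 4 := pow_le_pow_right₀ hK1 (by omega)
        have hp' : ‖p - ps‖ * K ^ 4 < min δ1 δ2 := (lt_div_iff₀ (by positivity)).mp hp
        calc ‖FF^[i] p - ps‖ ≤ K ^ i * ‖p - ps‖ := h
          _ ≤ K ^ 4 * ‖p - ps‖ := mul_le_mul_of_nonneg_right hK4 (norm_nonneg _)
          _ < min δ1 δ2 := by rw [mul_comm]; exact hp'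
          _ ≤ δ1 := min_le_left _ _
      rw [Function.iterate_succ_apply']
      calc ‖FF (FF^[i] p) - ps‖ ≤ C1 * ‖FF^[i] p - ps‖ := h1 _ hlt
        _ ≤ K * (K ^ i * ‖p - ps‖) :=
          mul_le_mul (le_max_left _ _) h (norm_nonneg _) hK0.le
        _ = _ := by ring
  refine ⟨3 * C2 * K ^ 4, by positivity, δ, hδ0, fun φ hφ => ?_⟩
  have hp4 : ‖tau φ - ps‖ < min δ1 δ2 / K ^ 4 := lt_of_lt_of_le hφ (min_le_left _ _)
  constructor
  · have key : ∀ i ≤ 4, dist (Wg MM (Wg MM ((Wg MM)^[i] φ))) ((Wg MM)^[i] φ)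
        ≤ C2 * K ^ 4 * ‖tau φ - ps‖ := by
      intro i hi
      refine (disp _).trans ?_
      rw [tau_iter]
      have h := hit i hi _ hp4
      have hK4 : K ^ i ≤ K ^ 4 := pow_le_pow_right₀ hK1 hi
      have hb : ‖FF^[i] (tau φ) - ps‖ ≤ K ^ 4 * ‖tau φ - ps‖ :=
        h.trans (mul_le_mul_of_nonneg_right hK4 (norm_nonneg _))
      have hlt : ‖FF^[i] (tau φ) - ps‖ < δ2 := by
        have hp' : ‖tau φ - ps‖ * K ^ 4 < min δ1 δ2 := (lt_div_iff₀ (by positivity)).mp hp4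
        calc ‖FF^[i] (tau φ) - ps‖ ≤ K ^ 4 * ‖tau φ - ps‖ := hb
          _ < min δ1 δ2 := by rw [mul_comm]; exact hp'
          _ ≤ δ2 := min_le_right _ _
      calc err (FF^[i] (tau φ)) ≤ C2 * ‖FF^[i] (tau φ) - ps‖ := h2 _ hlt
        _ ≤ C2 * (K ^ 4 * ‖tau φ - ps‖) := mul_le_mul_of_nonneg_left hb hC2.le
        _ = _ := by ring
    have k0 := key 0 (by norm_num)
    have k2 := key 2 (by norm_num)
    have k4 := key 4 (by norm_num)
    have e2 : (Wg MM)^[2] φ = Wg MM (Wg MM φ) := rfl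
    have e4 : (Wg MM)^[4] φ = Wg MM (Wg MM ((Wg MM)^[2] φ)) := rfl
    have e6 : (Wg MM)^[6] φ = Wg MM (Wg MM ((Wg MM)^[4] φ)) := rfl
    rw [← e4] at k2
    rw [← e6] at k4
    have k0' : dist ((Wg MM)^[2] φ) φ ≤ C2 * K ^ 4 * ‖tau φ - ps‖ := k0
    have t1 := dist_triangle ((Wg MM)^[6] φ) ((Wg MM)^[4] φ) φ
    have t2 := dist_triangle ((Wg MM)^[4] φ) ((Wg MM)^[2] φ) φ
    linarith
  · rw [tau_iter]
    exact h3 _ (lt_of_lt_of_le hφ (min_le_right _ _))

theorem summable_half : Summable fun k : ℕ => (1 / 2 : ℝ) ^ (k / 6) := by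
  refine Summable.of_nonneg_of_le (fun k => by positivity) (fun k => ?_)
    ((summable_geometric_of_lt_one (r := (9 / 10 : ℝ)) (by norm_num) (by norm_num)).mul_left 2)
  have e : k = 6 * (k / 6) + k % 6 := (Nat.div_add_mod k 6).symm
  have hr : k % 6 ≤ 5 := by omega
  generalize k / 6 = n at e ⊢
  generalize k % 6 = i at e hr
  subst e
  rw [pow_add, pow_mul]
  have h1 : (1 / 2 : ℝ) ^ n ≤ ((9 / 10 : ℝ) ^ 6) ^ n :=
    pow_le_pow_left₀ (by norm_num) (by norm_num) n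
  have h2 : (1 / 2 : ℝ) ≤ (9 / 10 : ℝ) ^ i := by
    calc (1 / 2 : ℝ) ≤ (9 / 10 : ℝ) ^ 5 := by norm_num
      _ ≤ (9 / 10 : ℝ) ^ i := pow_le_pow_of_le_one (by norm_num) (by norm_num) hr
  have h3 : 0 ≤ ((9 / 10 : ℝ) ^ 6) ^ n := by positivity
  nlinarith

theorem dist_iter (φ ψ : Bool → Sp1) (i : ℕ) :
    dist ((Wg MM)^[i] φ) ((Wg MM)^[i] ψ) ≤ 8 ^ i * dist φ ψ := by
  induction i with
  | zero => simp
  | succ i ih =>
    rw [Function.iterate_succ_apply', Function.iterate_succ_apply']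
    refine (dist_Wg sdist_left sdist_right MM _ _).trans ?_
    calc 8 * dist ((Wg MM)^[i] φ) ((Wg MM)^[i] ψ) ≤ 8 * (8 ^ i * dist φ ψ) :=
          mul_le_mul_of_nonneg_left ih (by norm_num)
      _ = _ := by ring

instance : CompactSpace Sp1 := isCompact_iff_compactSpace.mp (isCompact_sphere _ _)

theorem limit_exists : ∃ δ > 0, ∀ φ : Bool → Sp1, ‖tau φ - ps‖ < δ →
    ∃ χ : Bool → Sp1, tau χ = ps ∧
      Summable fun k => dist ((Wg MM)^[k] φ) ((Wg MM)^[k] χ) := by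
  obtain ⟨C, hC, δ, hδ, h⟩ := six
  refine ⟨δ, hδ, fun φ hφ => ?_⟩
  set u : ℕ → (Bool → Sp1) := fun n => ((Wg MM)^[6])^[n] φ with hu
  have hsucc : ∀ n, u (n + 1) = (Wg MM)^[6] (u n) := fun n => Function.iterate_succ_apply' _ _ _
  have h1 : ∀ n, ‖tau (u n) - ps‖ ≤ (1 / 2) ^ n * ‖tau φ - ps‖ ∧ ‖tau (u n) - ps‖ < δ := by
    intro n
    induction n with
    | zero => simpa [hu] using hφ
    | succ n ih =>
      have := (h (u n) ih.2).2
      rw [← hsucc] at this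
      have n0 := norm_nonneg (tau (u n) - ps)
      refine ⟨?_, by linarith [ih.2]⟩
      calc ‖tau (u (n+1)) - ps‖ ≤ 1 / 2 * ‖tau (u n) - ps‖ := this
        _ ≤ 1 / 2 * ((1 / 2) ^ n * ‖tau φ - ps‖) := by linarith [ih.1]
        _ = _ := by ring
  set a := C * ‖tau φ - ps‖ with ha
  have h2 : ∀ n, dist (u n) (u (n + 1)) ≤ a * (1 / 2) ^ n := by
    intro n
    rw [dist_comm, hsucc]
    refine ((h (u n) (h1 n).2).1).trans ?_
    calc C * ‖tau (u n) - ps‖ ≤ C * ((1 / 2) ^ n * ‖tau φ - ps‖) :=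
          mul_le_mul_of_nonneg_left (h1 n).1 hC.le
      _ = _ := by rw [ha]; ring
  have hc : CauchySeq u := cauchySeq_of_le_geometric (1 / 2) a (by norm_num) h2
  obtain ⟨χ, hχ⟩ := cauchySeq_tendsto_of_complete hc
  have h3 : ∀ n, dist (u n) χ ≤ a * (1 / 2) ^ n / (1 - 1 / 2) := fun n =>
    dist_le_of_le_geometric_of_tendsto (1 / 2) a (by norm_num) h2 hχ n
  have h4 : tau χ = ps := by
    have t1 : Tendsto (fun n => tau (u n)) atTop (𝓝 (tau χ)) := (continuous_tau.tendsto χ).comp hχ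
    have t2 : Tendsto (fun n => tau (u n)) atTop (𝓝 ps) := by
      rw [tendsto_iff_norm_sub_tendsto_zero]
      refine squeeze_zero (fun n => norm_nonneg _) (fun n => (h1 n).1) ?_
      have := (tendsto_pow_atTop_nhds_zero_of_lt_one (r := (1 / 2 : ℝ)) (by norm_num)
        (by norm_num)).mul_const ‖tau φ - ps‖
      simpa using this
    exact tendsto_nhds_unique t1 t2
  refine ⟨χ, h4, ?_⟩
  have h5 : (Wg MM)^[6] χ = χ := by
    have := (h χ (by rw [h4]; simpa using hδ)).1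
    rw [h4, sub_self, norm_zero, mul_zero] at this
    exact dist_le_zero.mp this
  refine Summable.of_nonneg_of_le (fun k => dist_nonneg) (fun k => ?_)
    (summable_half.mul_left (8 ^ 5 * (2 * a)))
  have ha0 : 0 ≤ a := by positivity
  have e : k = k % 6 + 6 * (k / 6) := (Nat.mod_add_div k 6).symm
  have hr : k % 6 ≤ 5 := by omega
  generalize k / 6 = n at e ⊢
  generalize k % 6 = i at e hr
  subst e
  rw [Function.iterate_add_apply, Function.iterate_add_apply, Function.iterate_mul,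
    Function.iterate_fixed h5 n]
  refine (dist_iter _ _ i).trans ?_
  have h6 : dist (((Wg MM)^[6])^[n] φ) χ ≤ 2 * a * (1 / 2) ^ n := by
    refine (h3 n).trans (le_of_eq ?_); ring
  have h8 : (8 : ℝ) ^ i ≤ 8 ^ 5 := pow_le_pow_right₀ (by norm_num) hr
  calc 8 ^ i * dist (((Wg MM)^[6])^[n] φ) χ ≤ 8 ^ 5 * (2 * a * (1 / 2) ^ n) :=
        mul_le_mul h8 h6 dist_nonneg (by norm_num)
    _ = _ := by ring

/-- quaternion with given coordinates -/
def mkq (a b c d : ℝ) : ℍ[ℝ] := ⟨a, b, c, d⟩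

theorem mkq_mem {a b c d : ℝ} (h : a ^ 2 + b ^ 2 + c ^ 2 + d ^ 2 = 1) :
    mkq a b c d ∈ Metric.sphere (0 : ℍ[ℝ]) 1 := by
  rw [mem_sphere_zero_iff_norm]
  have h1 : ‖mkq a b c d‖ * ‖mkq a b c d‖ = 1 := by
    rw [← Quaternion.normSq_eq_norm_mul_self, Quaternion.normSq_def']
    exact h
  nlinarith [norm_nonneg (mkq a b c d)]

theorem exists_star : ∃ φ : Bool → Sp1, tau φ = ps := by
  have h := gg_sq
  have hl := gg_lt
  have hg := gg_gt
  set s := √(1 - gg ^ 2 / 4) with hs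
  have hs2 : s ^ 2 = 1 - gg ^ 2 / 4 := Real.sq_sqrt (by nlinarith)
  have hs0 : 0 < s := Real.sqrt_pos.mpr (by nlinarith)
  set b1 := gg / (4 * s) with hb1
  have hb1s : s * b1 = gg / 4 := by rw [hb1]; field_simp
  have hb12 : b1 ^ 2 ≤ 3 / 4 := by
    have : s ^ 2 * b1 ^ 2 = gg ^ 2 / 16 := by rw [← mul_pow, hb1s]; ring
    have hs3 : 3 / 4 ≤ s ^ 2 := by rw [hs2]; nlinarith
    nlinarith [sq_nonneg b1]
  set b2 := √(3 / 4 - b1 ^ 2) with hb2
  have hb22 : b2 ^ 2 = 3 / 4 - b1 ^ 2 := Real.sq_sqrt (by linarith)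
  have hA : mkq (gg / 2) s 0 0 ∈ Metric.sphere (0 : ℍ[ℝ]) 1 := mkq_mem (by nlinarith)
  have hB : mkq (1 / 2) b1 b2 0 ∈ Metric.sphere (0 : ℍ[ℝ]) 1 := mkq_mem (by nlinarith)
  refine ⟨fun b => if b then ⟨_, hB⟩ else ⟨_, hA⟩, ?_⟩
  simp only [tau, ps, tr]
  refine Prod.ext ?_ (Prod.ext ?_ ?_)
  · change 2 * (gg / 2) = gg
    ring
  · change 2 * (1 / 2 : ℝ) = 1
    ring
  · change 2 * (mkq (gg / 2) s 0 0 * mkq (1 / 2) b1 b2 0).re = 0
    rw [Quaternion.re_mul]
    change 2 * (gg / 2 * (1 / 2) - s * b1 - 0 * b2 - 0 * 0) = 0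
    linarith

/-- cohomologous cocycles -/
def Coh {X H : Type*} [MeasurableSpace X] [Group H] [MeasurableSpace H] (μ : Measure X)
    (T : X → X) (φ ψ : X → H) : Prop :=
  ∃ f : X → H, Measurable f ∧ ∀ᵐ x ∂μ, ψ x = f (T x) * φ x * (f x)⁻¹

/-- the open set -/
theorem main [MeasurableSpace ℤ_[2]] [BorelSpace ℤ_[2]] [MeasurableSpace Sp1] [BorelSpace Sp1]
    (μ : Measure ℤ_[2]) [IsFiniteMeasure μ] [μ.IsAddLeftInvariant] :
    ∃ O : Set (Bool → Sp1), IsOpen O ∧ O.Nonempty ∧ ∀ φ ∈ O, ∀ ψ ∈ O,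
      Coh μ (fun x : ℤ_[2] => x + 1) (fun x => φ (letter x)) (fun x => ψ (letter x)) := by
  obtain ⟨δ, hδ, h⟩ := limit_exists
  have hrel : ∀ᵐ x ∂μ, ∀ i, letter (qt^[i] x) = MM (dg (qt^[i] x)) (letter (qt^[i+1] x)) := by
    filter_upwards [ae_not_NN μ] with x hx i
    have h1 := hx (i + 1)
    rw [Function.iterate_succ_apply'] at h1 ⊢
    exact letter_rel h1
  have htow : ∀ φ ψ : Bool → Sp1, (Summable fun k => dist ((Wg MM)^[k] φ) ((Wg MM)^[k] ψ)) →
      ∃ f : ℤ_[2] → Sp1, Measurable f ∧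
        ∀ᵐ x ∂μ, ψ (letter x) = f (x + 1) * φ (letter x) * (f x)⁻¹ := by
    intro φ ψ hs
    exact tower μ sdist_left sdist_right continuous_mul MM (fun x : ℤ_[2] => x + 1) qt dg letter
      continuous_qt.measurable continuous_dg.measurable measurable_letter dg_lt hT1 hT2 hrel
      (ae_digit μ) φ ψ hs
  refine ⟨{φ | ‖tau φ - ps‖ < δ}, ?_, ?_, ?_⟩
  · exact isOpen_lt ((continuous_tau.sub continuous_const).norm) continuous_const
  · obtain ⟨φ, hφ⟩ := exists_star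
    exact ⟨φ, by simp [hφ, hδ]⟩
  · intro φ hφ ψ hψ
    obtain ⟨χ, hχ, hs⟩ := h φ hφ
    obtain ⟨χ', hχ', hs'⟩ := h ψ hψ
    have hs'' : Summable fun k => dist ((Wg MM)^[k] χ') ((Wg MM)^[k] ψ) := by
      simpa [dist_comm] using hs'
    obtain ⟨f1, m1, e1⟩ := htow φ χ hs
    obtain ⟨f2, m2, e2⟩ := htow χ' ψ hs''
    have hg := gg_sq
    have hl := gg_lt
    have hgt := gg_gt
    obtain ⟨g, gA, gB⟩ := conj_of_tr (A := χ false) (B := χ true) (A' := χ' false)
      (B' := χ' true) (x := gg) (y := 1) (z := 0)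
      (congrArg Prod.fst hχ) (congrArg (fun p => p.2.1) hχ) (congrArg (fun p => p.2.2) hχ)
      (congrArg Prod.fst hχ') (congrArg (fun p => p.2.1) hχ') (congrArg (fun p => p.2.2) hχ')
      (by nlinarith) (by nlinarith)
    refine ⟨fun x => f2 x * g * f1 x, (m2.mul_const g).mul m1, ?_⟩
    filter_upwards [e1, e2] with x h1 h2
    have h3 : χ' (letter x) = g * χ (letter x) * g⁻¹ := by
      cases letter x with
      | false => exact gA
      | true => exact gB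
    rw [h2, h3, h1]
    group

end Q71.CO
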