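import Pool.Agent.Q71.CO.Conj

/-!
# The trace map and its attracting fixed point
-/

open Quaternion Filter Topology

namespace Q71.CO

/-- the conjugate golden mean -/
noncomputable def gg : ℝ := (1 - √5) / 2

theorem gg_sq : gg ^ 2 = gg + 1 := by
  have h : √5 ^ 2 = 5 := Real.sq_sqrt (by norm_num)
  unfold gg; nlinarith

theorem gg_lt : gg < -(3 / 5) := by
  have h : √5 ^ 2 = 5 := Real.sq_sqrt (by norm_num)
  have h0 : 0 ≤ √5 := Real.sqrt_nonneg 5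
  unfold gg; nlinarith

theorem gg_gt : -(5 / 8) < gg := by
  have h : √5 ^ 2 = 5 := Real.sq_sqrt (by norm_num)
  have h0 : 0 ≤ √5 := Real.sqrt_nonneg 5
  unfold gg; nlinarith

/-- trace map -/
def FF (p : ℝ × ℝ × ℝ) : ℝ × ℝ × ℝ :=
  (F1 p.1 p.2.1 p.2.2, F2 p.1 p.2.1 p.2.2, F3 p.1 p.2.1 p.2.2)

/-- its fixed point -/
noncomputable def ps : ℝ × ℝ × ℝ := (gg, 1, 0)

theorem FF_ps : FF ps = ps := by
  have h := gg_sq
  simp only [FF, ps, F3, F1, F2, tt]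
  refine Prod.ext ?_ (Prod.ext ?_ ?_)
  · simp
  · simp only [mul_one, mul_zero]; linear_combination (gg + 1) * h
  · simp only [mul_one, mul_zero]; linear_combination (gg ^ 2 + gg - 1) * h

/-- the linear form with coefficients `a b c` -/
noncomputable def L3 (a b c : ℝ) : ℝ × ℝ × ℝ →L[ℝ] ℝ :=
  a • ContinuousLinearMap.fst ℝ ℝ (ℝ × ℝ) +
    (b • (ContinuousLinearMap.fst ℝ ℝ ℝ).comp (ContinuousLinearMap.snd ℝ ℝ (ℝ × ℝ)) +
     c • (ContinuousLinearMap.snd ℝ ℝ ℝ).comp (ContinuousLinearMap.snd ℝ ℝ (ℝ × ℝ)))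

theorem L3_apply (a b c : ℝ) (v : ℝ × ℝ × ℝ) : L3 a b c v = a * v.1 + b * v.2.1 + c * v.2.2 := by
  simp [L3]; ring

/-- value and gradient at the fixed point -/
def HG (f : ℝ × ℝ × ℝ → ℝ) (v a b c : ℝ) : Prop := f ps = v ∧ HasFDerivAt f (L3 a b c) ps

theorem HG.mul {f f' : ℝ × ℝ × ℝ → ℝ} {v a b c v' a' b' c' : ℝ} (h : HG f v a b c)
    (h' : HG f' v' a' b' c') :
    HG (fun p => f p * f' p) (v * v') (v * a' + v' * a) (v * b' + v' * b) (v * c' + v' * c) := by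
  refine ⟨by simp [h.1, h'.1], ?_⟩
  refine (h.2.fun_mul h'.2).congr_fderiv ?_
  refine ContinuousLinearMap.ext fun w => ?_
  simp only [h.1, h'.1, _root_.add_apply, _root_.smul_apply, L3_apply,
    smul_eq_mul]
  ring

theorem HG.sub {f f' : ℝ × ℝ × ℝ → ℝ} {v a b c v' a' b' c' : ℝ} (h : HG f v a b c)
    (h' : HG f' v' a' b' c') :
    HG (fun p => f p - f' p) (v - v') (a - a') (b - b') (c - c') := by
  refine ⟨by simp [h.1, h'.1], ?_⟩
  refine (h.2.fun_sub h'.2).congr_fderiv ?_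
  refine ContinuousLinearMap.ext fun w => ?_
  simp only [_root_.sub_apply, L3_apply]
  ring

theorem HG.add {f f' : ℝ × ℝ × ℝ → ℝ} {v a b c v' a' b' c' : ℝ} (h : HG f v a b c)
    (h' : HG f' v' a' b' c') :
    HG (fun p => f p + f' p) (v + v') (a + a') (b + b') (c + c') := by
  refine ⟨by simp [h.1, h'.1], ?_⟩
  refine (h.2.fun_add h'.2).congr_fderiv ?_
  refine ContinuousLinearMap.ext fun w => ?_
  simp only [_root_.add_apply, L3_apply]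
  ring

theorem HG.const (r : ℝ) : HG (fun _ => r) r 0 0 0 := by
  refine ⟨rfl, (hasFDerivAt_const r ps).congr_fderiv ?_⟩
  refine ContinuousLinearMap.ext fun w => ?_
  simp [L3_apply]

theorem HG.congr {f f' : ℝ × ℝ × ℝ → ℝ} {v a b c v' a' b' c' : ℝ} (h : HG f v a b c)
    (hf : ∀ p, f' p = f p) (hv : v' = v) (ha : a' = a) (hb : b' = b) (hc : c' = c) :
    HG f' v' a' b' c' := by
  have : f' = f := funext hf
  subst this hv ha hb hc
  exact h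

theorem HG_x : HG (fun p => p.1) gg 1 0 0 := by
  refine ⟨rfl, (hasFDerivAt_fst (𝕜 := ℝ)).congr_fderiv ?_⟩
  refine ContinuousLinearMap.ext fun w => ?_
  simp [L3_apply]

theorem HG_y : HG (fun p => p.2.1) 1 0 1 0 := by
  refine ⟨rfl, ((hasFDerivAt_snd (𝕜 := ℝ)).fst).congr_fderiv ?_⟩
  refine ContinuousLinearMap.ext fun w => ?_
  simp [L3_apply]

theorem HG_z : HG (fun p => p.2.2) 0 0 0 1 := by
  refine ⟨rfl, ((hasFDerivAt_snd (𝕜 := ℝ)).snd).congr_fderiv ?_⟩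
  refine ContinuousLinearMap.ext fun w => ?_
  simp [L3_apply]

theorem HG_t : HG (fun p => tt p.1 p.2.1 p.2.2) (-1) 0 (-1) gg :=
  ((HG_x.mul HG_z).sub HG_y).congr (fun p => rfl) (by ring) (by ring) (by ring) (by ring)

theorem HG_F1 : HG (fun p => F1 p.1 p.2.1 p.2.2) gg 1 gg (-1 - gg) := by
  have h := gg_sq
  refine ((HG_t.mul ((HG_z.mul HG_t).sub HG_x)).sub HG_z).congr (fun p => rfl) ?_ ?_ ?_ ?_
  · ring
  · ring
  · ring
  · linear_combination h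

theorem HG_F2 : HG (fun p => F2 p.1 p.2.1 p.2.2) 1 (1 + 3 * gg) (1 + 2 * gg) (-1 - 2 * gg) := by
  have h := gg_sq
  have hx2 := HG_x.mul HG_x
  have hx3 := hx2.mul HG_x
  have m1 := (hx2.mul HG_y).mul HG_z
  have m3 := HG_y.mul HG_z
  have m4 := (HG.const 3).mul HG_x
  have m5 := HG_x.mul (HG_y.mul HG_y)
  have m := (((m1.sub hx3).sub m3).add m4).sub m5
  refine ((HG_t.mul m).sub HG_z).congr (fun p => by simp only [F2]; ring) ?_ ?_ ?_ ?_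
  · linear_combination (-(gg : ℝ) - 1) * h
  · linear_combination (-3 : ℝ) * h
  · linear_combination (-(gg : ℝ) - 1) * h
  · linear_combination (gg ^ 2 + gg + 1) * h

theorem HG_F3 : HG (fun p => F3 p.1 p.2.1 p.2.2) 0 (4 + 2 * gg) (4 * gg) (-3 - 3 * gg) := by
  have h := gg_sq
  have k1 := HG_F1.mul HG_F2
  have k2 := ((((HG_x.mul HG_x).add (HG_y.mul HG_y)).add (HG_z.mul HG_z)).sub
    ((HG_x.mul HG_y).mul HG_z)).sub (HG.const 2)
  refine (k1.sub k2).congr (fun p => by simp only [F3]; ring) ?_ ?_ ?_ ?_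
  · linear_combination h
  · linear_combination (-3 : ℝ) * h
  · linear_combination (-2 : ℝ) * h
  · linear_combination (2 : ℝ) * h

/-- the derivative at the fixed point -/
noncomputable def JJ : ℝ × ℝ × ℝ →L[ℝ] ℝ × ℝ × ℝ :=
  (L3 1 gg (-1 - gg)).prod ((L3 (1 + 3 * gg) (1 + 2 * gg) (-1 - 2 * gg)).prod
    (L3 (4 + 2 * gg) (4 * gg) (-3 - 3 * gg)))

theorem hasFDerivAt_FF : HasFDerivAt FF JJ ps :=
  HG_F1.2.prodMk (HG_F2.2.prodMk HG_F3.2)

theorem JJ_apply (v : ℝ × ℝ × ℝ) : JJ v = (1 * v.1 + gg * v.2.1 + (-1 - gg) * v.2.2,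
    (1 + 3 * gg) * v.1 + (1 + 2 * gg) * v.2.1 + (-1 - 2 * gg) * v.2.2,
    (4 + 2 * gg) * v.1 + (4 * gg) * v.2.1 + (-3 - 3 * gg) * v.2.2) := by
  simp only [JJ, ContinuousLinearMap.prod_apply, L3_apply]

theorem JJ2 (v : ℝ × ℝ × ℝ) : JJ (JJ v) =
    ((-2 - 4 * gg) * (v.1 + v.2.1) + (3 + 5 * gg) * v.2.2, 0,
      (-2 - 6 * gg) * (v.1 + v.2.1) + (4 + 7 * gg) * v.2.2) := by
  have h := gg_sq
  rw [JJ_apply (JJ v), JJ_apply v]
  refine Prod.ext ?_ (Prod.ext ?_ ?_) <;> simp only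
  · linear_combination (v.1 + (-2 * v.2.1) + v.2.2) * h
  · linear_combination (2 * v.1 - v.2.1 - v.2.2) * h
  · linear_combination (6 * v.1 - 2 * v.2.1 - v.2.2) * h

theorem JJ3 (v : ℝ × ℝ × ℝ) : JJ (JJ (JJ v)) = (-(1 + gg)) • JJ (JJ v) := by
  have h := gg_sq
  rw [JJ2 (JJ v), JJ2 v, JJ_apply v]
  refine Prod.ext ?_ (Prod.ext ?_ ?_) <;> simp only [Prod.smul_mk, smul_eq_mul]
  · linear_combination (-6 * v.1 + 4 * v.2.1 + 2 * v.2.2) * h
  · ring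
  · linear_combination (-10 * v.1 + 4 * v.2.1 + 4 * v.2.2) * h

theorem norm_JJ2 (v : ℝ × ℝ × ℝ) : ‖JJ (JJ v)‖ ≤ 4 * ‖v‖ := by
  have h1 := gg_lt
  have h2 := gg_gt
  have n1 : |v.1| ≤ ‖v‖ := norm_fst_le v
  have n2 : |v.2.1| ≤ ‖v‖ := (norm_fst_le v.2).trans (norm_snd_le v)
  have n3 : |v.2.2| ≤ ‖v‖ := (norm_snd_le v.2).trans (norm_snd_le v)
  have n12 : |v.1 + v.2.1| ≤ 2 * ‖v‖ := (abs_add_le _ _).trans (by linarith)
  have n0 := norm_nonneg v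
  rw [JJ2]
  simp only [Prod.norm_def, Real.norm_eq_abs, abs_zero] at n0 n1 n2 n3 n12 ⊢
  have key : ∀ a b : ℝ, |a| ≤ 7 / 4 → |b| ≤ 1 / 2 →
      |a * (v.1 + v.2.1) + b * v.2.2| ≤ 4 * max |v.1| (max |v.2.1| |v.2.2|) := by
    intro a b ha hb
    refine (abs_add_le _ _).trans ?_
    rw [abs_mul, abs_mul]
    have t1 : |a| * |v.1 + v.2.1| ≤ 7 / 4 * (2 * max |v.1| (max |v.2.1| |v.2.2|)) :=
      mul_le_mul ha n12 (abs_nonneg _) (by norm_num)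
    have t2 : |b| * |v.2.2| ≤ 1 / 2 * max |v.1| (max |v.2.1| |v.2.2|) :=
      mul_le_mul hb n3 (abs_nonneg _) (by norm_num)
    linarith
  refine max_le (key _ _ ?_ ?_) (max_le ?_ (key _ _ ?_ ?_))
  · rw [abs_le]; constructor <;> linarith
  · rw [abs_le]; constructor <;> linarith
  · linarith
  · rw [abs_le]; constructor <;> linarith
  · rw [abs_le]; constructor <;> linarith

theorem norm_JJ6 (v : ℝ × ℝ × ℝ) : ‖(JJ ^ 6) v‖ ≤ 1 / 4 * ‖v‖ := by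
  have h1 := gg_lt
  have h2 := gg_gt
  have e : (JJ ^ 6) v = ((1 + gg) ^ 4) • JJ (JJ v) := by
    have : (JJ ^ 6) v = JJ (JJ (JJ (JJ (JJ (JJ v))))) := by
      simp only [pow_succ, pow_zero, one_mul]; rfl
    rw [this, JJ3 (JJ (JJ (JJ v))), JJ3 (JJ (JJ v)), JJ3 (JJ v), JJ3 v]
    simp only [smul_smul]
    congr 1; ring
  rw [e, norm_smul, Real.norm_eq_abs]
  have h3 : |(1 + gg) ^ 4| ≤ 1 / 16 := by
    rw [abs_pow, abs_of_pos (by linarith)]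
    calc (1 + gg) ^ 4 ≤ (1 / 2) ^ 4 := by
          apply pow_le_pow_left₀ (by linarith) (by linarith)
      _ = _ := by norm_num
  have h4 := norm_JJ2 v
  calc |(1 + gg) ^ 4| * ‖JJ (JJ v)‖ ≤ 1 / 16 * (4 * ‖v‖) :=
        mul_le_mul h3 h4 (norm_nonneg _) (by norm_num)
    _ = _ := by ring

/-- the sixth iterate of the trace map contracts towards the fixed point -/
theorem contr6 : ∃ δ > 0, ∀ p, ‖p - ps‖ < δ → ‖FF^[6] p - ps‖ ≤ 1 / 2 * ‖p - ps‖ := by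
  have hd := hasFDerivAt_FF.iterate FF_ps 6
  have hit : FF^[6] ps = ps := Function.iterate_fixed FF_ps 6
  have h1 := (hasFDerivAt_iff_isLittleO.mp hd).def (show (0 : ℝ) < 1 / 4 by norm_num)
  obtain ⟨δ, hδ, h2⟩ := Metric.eventually_nhds_iff.mp h1
  refine ⟨δ, hδ, fun p hp => ?_⟩
  have h3 := h2 (by rwa [dist_eq_norm])
  rw [hit] at h3
  have h4 := norm_JJ6 (p - ps)
  calc ‖FF^[6] p - ps‖ = ‖(FF^[6] p - ps - (JJ ^ 6) (p - ps)) + (JJ ^ 6) (p - ps)‖ := by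
        congr 1; abel
    _ ≤ _ := norm_add_le _ _
    _ ≤ 1 / 2 * ‖p - ps‖ := by linarith

/-- one step of the trace map is Lipschitz at the fixed point -/
theorem lip1 : ∃ C > 0, ∃ δ > 0, ∀ p, ‖p - ps‖ < δ → ‖FF p - ps‖ ≤ C * ‖p - ps‖ := by
  have h1 := hasFDerivAt_FF.isBigO_sub
  obtain ⟨C, hC, h2⟩ := h1.exists_pos
  obtain ⟨δ, hδ, h3⟩ := Metric.eventually_nhds_iff.mp h2.bound
  refine ⟨C, hC, δ, hδ, fun p hp => ?_⟩
  have := h3 (by rwa [dist_eq_norm])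
  rwa [FF_ps] at this

/-- the error function of one displacement -/
noncomputable def err (p : ℝ × ℝ × ℝ) : ℝ :=
  ep (tt p.1 p.2.1 p.2.2) + ep (tt (FF p).1 (FF p).2.1 (FF p).2.2) +
    5 * ep (tt p.1 p.2.1 p.2.2) + (2 * |p.2.2| + e3 p.2.1 + e5 p.1)

theorem bigO_of_mul {f g : ℝ × ℝ × ℝ → ℝ} (hf : DifferentiableAt ℝ f ps) (h0 : f ps = 0)
    (hg : ContinuousAt g ps) : (fun p => |f p| * g p) =O[𝓝 ps] (fun p => ‖p - ps‖) := by
  have h1 : f =O[𝓝 ps] (fun p => ‖p - ps‖) := by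
    have := hf.isBigO_sub
    simpa [h0] using this.norm_right
  have h2 : g =O[𝓝 ps] (fun _ => (1 : ℝ)) := hg.isBigO_one ℝ
  have h3 := h1.norm_left.mul h2
  simpa [Real.norm_eq_abs] using h3

theorem err_bigO : err =O[𝓝 ps] (fun p => ‖p - ps‖) := by
  have dF := hasFDerivAt_FF.differentiableAt
  have a1 : (fun p : ℝ × ℝ × ℝ => ep (tt p.1 p.2.1 p.2.2)) =O[𝓝 ps] (fun p => ‖p - ps‖) := by
    refine bigO_of_mul (f := fun p : ℝ × ℝ × ℝ => tt p.1 p.2.1 p.2.2 + 1)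
      (g := fun p : ℝ × ℝ × ℝ => |tt p.1 p.2.1 p.2.2 - 1| + 1) ?_ ?_ ?_
    · unfold tt; fun_prop
    · simp [tt, ps]
    · unfold tt; fun_prop
  have a2 : (fun p : ℝ × ℝ × ℝ => ep (tt (FF p).1 (FF p).2.1 (FF p).2.2))
      =O[𝓝 ps] (fun p => ‖p - ps‖) := by
    refine bigO_of_mul (f := fun p : ℝ × ℝ × ℝ => tt (FF p).1 (FF p).2.1 (FF p).2.2 + 1)
      (g := fun p : ℝ × ℝ × ℝ => |tt (FF p).1 (FF p).2.1 (FF p).2.2 - 1| + 1) ?_ ?_ ?_
    · exact ((dF.fst.mul dF.snd.snd).sub dF.snd.fst).add_const 1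
    · simp [tt, FF_ps]; simp [ps]
    · have c := dF.continuousAt
      exact (((c.fst.mul c.snd.snd).sub c.snd.fst).sub continuousAt_const).abs.add
        continuousAt_const
  have a3 : (fun p : ℝ × ℝ × ℝ => |p.2.2| * 2) =O[𝓝 ps] (fun p => ‖p - ps‖) :=
    bigO_of_mul (f := fun p : ℝ × ℝ × ℝ => p.2.2) (g := fun _ => 2) (by fun_prop) rfl (by fun_prop)
  have a4 : (fun p : ℝ × ℝ × ℝ => e3 p.2.1) =O[𝓝 ps] (fun p => ‖p - ps‖) :=
    bigO_of_mul (f := fun p : ℝ × ℝ × ℝ => p.2.1 - 1)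
      (g := fun p : ℝ × ℝ × ℝ => |p.2.1 + 1| + 1) (by fun_prop) (by simp [ps]) (by fun_prop)
  have a5 : (fun p : ℝ × ℝ × ℝ => e5 p.1) =O[𝓝 ps] (fun p => ‖p - ps‖) :=
    bigO_of_mul (f := fun p : ℝ × ℝ × ℝ => p.1 ^ 2 - p.1 - 1)
      (g := fun p : ℝ × ℝ × ℝ => |p.1 ^ 2 + p.1 - 1| + |p.1 + 1|) (by fun_prop)
      (by simp only [ps]; linear_combination gg_sq) (by fun_prop)
  have := (((a1.add a2).add (a1.const_mul_left 5)).add ((a3.add a4).add a5))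
  refine this.congr_left fun p => ?_
  simp only [err]; ring

theorem err_bound : ∃ C > 0, ∃ δ > 0, ∀ p, ‖p - ps‖ < δ → err p ≤ C * ‖p - ps‖ := by
  obtain ⟨C, hC, h2⟩ := err_bigO.exists_pos
  obtain ⟨δ, hδ, h3⟩ := Metric.eventually_nhds_iff.mp h2.bound
  refine ⟨C, hC, δ, hδ, fun p hp => ?_⟩
  have := h3 (by rwa [dist_eq_norm])
  rw [norm_norm] at this
  exact (le_abs_self _).trans this

end Q71.CO
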