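import Mathlib

/-!
# Word maps on pairs of unit quaternions in trace coordinates
-/

open Quaternion

namespace Q71.CO

/-- twice the real part -/
noncomputable def tr (q : ℍ[ℝ]) : ℝ := 2 * q.re

theorem tr_mul_comm (p q : ℍ[ℝ]) : tr (p * q) = tr (q * p) := by
  simp [tr]; ring

theorem tr_smul (r : ℝ) (q : ℍ[ℝ]) : tr (r • q) = r * tr q := by simp [tr]; ring

theorem tr_sub (p q : ℍ[ℝ]) : tr (p - q) = tr p - tr q := by simp [tr]; ring

theorem tr_add (p q : ℍ[ℝ]) : tr (p + q) = tr p + tr q := by simp [tr]; ring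

theorem tr_one : tr 1 = 2 := by simp [tr]

theorem add_star (q : ℍ[ℝ]) : q + star q = (tr q) • 1 := by
  ext <;> simp [tr]; ring

theorem star_eq (q : ℍ[ℝ]) : star q = (tr q) • 1 - q := by
  rw [← add_star]; abel

theorem mul_star_unit {q : ℍ[ℝ]} (h : ‖q‖ = 1) : q * star q = 1 := by
  rw [Quaternion.self_mul_star, Quaternion.normSq_eq_norm_mul_self, h]; simp

theorem star_mul_unit {q : ℍ[ℝ]} (h : ‖q‖ = 1) : star q * q = 1 := by
  rw [Quaternion.star_mul_self, Quaternion.normSq_eq_norm_mul_self, h]; simp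

theorem sq_eq {q : ℍ[ℝ]} (h : ‖q‖ = 1) : q * q = (tr q) • q - 1 := by
  have h1 := mul_star_unit h
  rw [star_eq, mul_sub] at h1
  rw [← h1]
  simp

variable {A B : ℍ[ℝ]}

/-- `tr (A A B)` -/
theorem tr_D (hA : ‖A‖ = 1) : tr (A * A * B) = tr A * tr (A * B) - tr B := by
  rw [sq_eq hA, sub_mul, smul_mul_assoc, one_mul, tr_sub, tr_smul]

theorem norm_D (hA : ‖A‖ = 1) (hB : ‖B‖ = 1) : ‖A * A * B‖ = 1 := by
  simp [hA, hB]

theorem norm_AB (hA : ‖A‖ = 1) (hB : ‖B‖ = 1) : ‖A * B‖ = 1 := by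
  simp [hA, hB]

/-- first component of the word map -/
noncomputable def WU (A B : ℍ[ℝ]) : ℍ[ℝ] := A * B * (A * A * B * (A * A * B))
/-- second component of the word map -/
noncomputable def WV (A B : ℍ[ℝ]) : ℍ[ℝ] := B * A * (A * A * B * (A * A * B))

theorem norm_WU (hA : ‖A‖ = 1) (hB : ‖B‖ = 1) : ‖WU A B‖ = 1 := by simp [WU, hA, hB]
theorem norm_WV (hA : ‖A‖ = 1) (hB : ‖B‖ = 1) : ‖WV A B‖ = 1 := by simp [WV, hA, hB]

/-- the auxiliary trace coordinate -/
def tt (x y z : ℝ) : ℝ := x * z - y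
/-- first trace polynomial -/
def F1 (x y z : ℝ) : ℝ := tt x y z * (z * tt x y z - x) - z
/-- second trace polynomial -/
def F2 (x y z : ℝ) : ℝ :=
  tt x y z * (x ^ 2 * y * z - x ^ 3 - y * z + 3 * x - x * y ^ 2) - z
/-- third trace polynomial -/
def F3 (x y z : ℝ) : ℝ := F1 x y z * F2 x y z - (x ^ 2 + y ^ 2 + z ^ 2 - x * y * z - 2)

theorem tr_WU (hA : ‖A‖ = 1) (hB : ‖B‖ = 1) :
    tr (WU A B) = F1 (tr A) (tr B) (tr (A * B)) := by
  have h1 : tr (A * B * (A * A * B)) = tr (A * B) * tt (tr A) (tr B) (tr (A * B)) - tr A := by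
    have e : tr (A * B * (A * A * B)) = tr (A * ((A * B) * (A * B))) := by
      rw [tr_mul_comm (A * B)]; simp only [mul_assoc]
    have e2 : tr (A * (A * B)) = tt (tr A) (tr B) (tr (A * B)) := by
      rw [← mul_assoc, tr_D hA, tt]
    rw [e, sq_eq (norm_AB hA hB), mul_sub, mul_smul_comm, mul_one, tr_sub, tr_smul, e2]
  rw [WU, sq_eq (norm_D hA hB), mul_sub, mul_smul_comm, mul_one, tr_sub, tr_smul, h1, tr_D hA, F1,
    tt]

theorem tr_WV (hA : ‖A‖ = 1) (hB : ‖B‖ = 1) :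
    tr (WV A B) = F2 (tr A) (tr B) (tr (A * B)) := by
  set x := tr A with hx
  set y := tr B with hy
  set z := tr (A * B) with hz
  have h1 : tr (B * A * (A * A * B))
      = x ^ 2 * y * z - x ^ 3 - y * z + 3 * x - x * y ^ 2 := by
    have e : tr (B * A * (A * A * B)) = tr ((A * A * A) * (B * B)) := by
      rw [show A * A * A * (B * B) = (A * A * A * B) * B by simp only [mul_assoc],
        tr_mul_comm (A * A * A * B) B]
      simp only [mul_assoc]
    have e3 : A * A * A = (x ^ 2 - 1) • A - x • (1 : ℍ[ℝ]) := by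
      rw [sq_eq hA, sub_mul, smul_mul_assoc, sq_eq hA, ← hx, one_mul, smul_sub, smul_smul,
        sub_smul, one_smul]
      rw [pow_two]; abel
    have eBB : tr (B * B) = y ^ 2 - 2 := by
      rw [sq_eq hB, tr_sub, tr_smul, tr_one, ← hy]; ring
    have eABB : tr (A * (B * B)) = y * z - x := by
      rw [sq_eq hB, mul_sub, mul_smul_comm, mul_one, tr_sub, tr_smul]
    rw [e, e3, sub_mul, smul_mul_assoc, smul_mul_assoc, one_mul, tr_sub, tr_smul, tr_smul,
      eABB, eBB]
    ring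
  have h2 : tr (B * A) = z := by rw [tr_mul_comm]
  rw [WV, sq_eq (norm_D hA hB), mul_sub, mul_smul_comm, mul_one, tr_sub, tr_smul, h1, tr_D hA, F2,
    h2, tt]

theorem tr_comm (hA : ‖A‖ = 1) (hB : ‖B‖ = 1) : tr (A * B * (star A * star B))
    = tr A ^ 2 + tr B ^ 2 + tr (A * B) ^ 2 - tr A * tr B * tr (A * B) - 2 := by
  have e1 : tr (A * B * B) = tr B * tr (A * B) - tr A := by
    rw [mul_assoc, sq_eq hB, mul_sub, mul_smul_comm, mul_one, tr_sub, tr_smul]
  have e2 : tr (A * B * A) = tr A * tr (A * B) - tr B := by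
    rw [tr_mul_comm, ← mul_assoc, tr_D hA]
  have e3 : tr (A * B * (A * B)) = tr (A * B) ^ 2 - 2 := by
    rw [sq_eq (norm_AB hA hB), tr_sub, tr_smul, tr_one]; ring
  rw [star_eq A, star_eq B]
  simp only [mul_sub, sub_mul, smul_mul_assoc, mul_smul_comm, one_mul, mul_one, tr_sub, tr_smul]
  rw [e1, e2, e3]
  ring

theorem tr_WUV (hA : ‖A‖ = 1) (hB : ‖B‖ = 1) :
    tr (WU A B * WV A B) = F3 (tr A) (tr B) (tr (A * B)) := by
  have h1 : tr (WU A B * WV A B) = tr (WU A B) * tr (WV A B) - tr (WU A B * star (WV A B)) := by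
    rw [star_eq (WV A B), mul_sub, mul_smul_comm, mul_one, tr_sub, tr_smul]; ring
  have h2 : WU A B * star (WV A B) = A * B * (star A * star B) := by
    set D := A * A * B with hD
    have hE : ‖D * D‖ = 1 := by simp [hD, hA, hB]
    have : WU A B * star (WV A B) = A * B * ((D * D) * star (D * D)) * (star A * star B) := by
      rw [WU, WV, ← hD, StarMul.star_mul (B * A) (D * D), StarMul.star_mul B A]
      simp only [mul_assoc]
    rw [this, mul_star_unit hE, mul_one]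
  rw [h1, h2, tr_comm hA hB, tr_WU hA hB, tr_WV hA hB, F3]

end Q71.CO
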